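import Mathlib

/-!
# Differentiable solutions of autonomous analytic differential equations are analytic

The superposition lemmas are taken from `Pool.Agent.Run7.h982.Nem` (helper982).
-/

set_option autoImplicit false

open MeasureTheory Set Filter Topology Metric unitInterval
open scoped ContDiff ENNReal NNReal

namespace Pool.Agent.Run7.h506.LF

section

variable {X V W : Type*} [TopologicalSpace X] [CompactSpace X] [NormedAddCommGroup V]
  [NormedSpace ℝ V] [NormedAddCommGroup W] [NormedSpace ℝ W]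

/-- superposition by a continuous multilinear map -/
noncomputable def supM {n : ℕ} (p : V [×n]→L[ℝ] W) : C(X, V) [×n]→L[ℝ] C(X, W) :=
  MultilinearMap.mkContinuous
    { toFun := fun h => ⟨fun x => p (fun i => h i x), by fun_prop⟩
      map_update_add' := by
        intro _ m i x y
        ext t
        have h1 : ∀ z : C(X, V), (fun j => Function.update m i z j t)
            = Function.update (fun j => m j t) i (z t) := by
          intro z
          ext j
          by_cases h : j = i
          · subst h; simp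
          · simp [h]
        simp only [ContinuousMap.coe_mk, ContinuousMap.add_apply]
        rw [h1, h1, h1]
        simp
      map_update_smul' := by
        intro _ m i c x
        ext t
        have h1 : ∀ z : C(X, V), (fun j => Function.update m i z j t)
            = Function.update (fun j => m j t) i (z t) := by
          intro z
          ext j
          by_cases h : j = i
          · subst h; simp
          · simp [h]
        simp only [ContinuousMap.coe_mk, ContinuousMap.smul_apply]
        rw [h1, h1]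
        simp }
    ‖p‖ (by
      intro m
      rw [ContinuousMap.norm_le _ (by positivity)]
      intro x
      refine (p.le_opNorm _).trans ?_
      apply mul_le_mul_of_nonneg_left _ (norm_nonneg _)
      apply Finset.prod_le_prod (fun _ _ => norm_nonneg _)
      intro i _
      exact (m i).norm_coe_le_norm x)

theorem supM_norm {n : ℕ} (p : V [×n]→L[ℝ] W) :
    ‖(supM p : C(X, V) [×n]→L[ℝ] C(X, W))‖ ≤ ‖p‖ :=
  MultilinearMap.mkContinuous_norm_le _ (norm_nonneg _) _

theorem supM_apply {n : ℕ} (p : V [×n]→L[ℝ] W) (h : Fin n → C(X, V)) (x : X) :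
    (supM p h) x = p (fun i => h i x) := rfl

/-- superposition near a constant -/
theorem nem_const [CompleteSpace W] (f : V → W) (v₀ : V) (h : AnalyticAt ℝ f v₀) :
    ∃ (r : ℝ) (P : C(X, V) → C(X, W)), 0 < r ∧ (∀ g, ‖g‖ < r → AnalyticAt ℝ P g) ∧
      ∀ g, ‖g‖ < r → ∀ x, P g x = f (v₀ + g x) := by
  obtain ⟨p, ρ, hp⟩ := h
  obtain ⟨r, hr0, hrρ⟩ := ENNReal.lt_iff_exists_nnreal_btwn.1 hp.r_pos
  have hr0' : (0 : ℝ) < r := by
    have := ENNReal.coe_pos.1 hr0
    exact_mod_cast this
  set q : FormalMultilinearSeries ℝ C(X, V) C(X, W) := fun n => supM (p n) with hq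
  have hrad : ρ ≤ q.radius := hp.r_le.trans
    (FormalMultilinearSeries.radius_le_of_le (fun n => supM_norm (p n)))
  have hrq : (r : ℝ≥0∞) < q.radius := hrρ.trans_le hrad
  have hqp := q.hasFPowerSeriesOnBall ((hp.r_pos).trans_le hrad)
  have hmem : ∀ g : C(X, V), ‖g‖ < r → g ∈ Metric.eball (0 : C(X, V)) q.radius := by
    intro g hg
    rw [Metric.mem_eball, edist_zero_right]
    refine lt_trans ?_ hrq
    rw [← ofReal_norm, ← ENNReal.ofReal_coe_nnreal]
    exact (ENNReal.ofReal_lt_ofReal_iff hr0').2 hg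
  refine ⟨r, q.sum, hr0', fun g hg => hqp.analyticAt_of_mem (hmem g hg), ?_⟩
  intro g hg x
  have h1 := hqp.hasSum (hmem g hg)
  rw [zero_add] at h1
  have h2 : HasSum (fun n => (q n (fun _ => g)) x) (q.sum g x) := by
    have h0 : HasSum (fun n => q n (fun _ => g)) (q.sum g) := h1
    exact (ContinuousMap.hasSum_apply h0 x)
  have h3 : HasSum (fun n => p n (fun _ => g x)) (f (v₀ + g x)) := by
    apply hp.hasSum
    rw [Metric.mem_eball, edist_zero_right]
    refine lt_of_le_of_lt ?_ hrρ
    rw [← ofReal_norm, ← ENNReal.ofReal_coe_nnreal]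
    exact ENNReal.ofReal_le_ofReal ((g.norm_coe_le_norm x).trans hg.le)
  exact h2.unique h3

end

variable {W : Type*} [NormedAddCommGroup W] [NormedSpace ℝ W]

/-- the primitive -/
noncomputable def prim : C(I, W) →L[ℝ] C(I, W) :=
  LinearMap.mkContinuous
    { toFun := fun ψ => ⟨fun t => ∫ s in (0 : ℝ)..t, ψ (projIcc 0 1 zero_le_one s), by
        have h : Continuous fun s => ψ (projIcc 0 1 zero_le_one s) :=
          ψ.continuous.comp continuous_projIcc
        exact (intervalIntegral.continuous_primitive (fun a b => h.intervalIntegrable a b) 0).comp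
          continuous_subtype_val⟩
      map_add' := by
        intro x y
        ext t
        simp only [ContinuousMap.coe_mk, ContinuousMap.add_apply]
        apply intervalIntegral.integral_add
        · exact (x.continuous.comp continuous_projIcc).intervalIntegrable _ _
        · exact (y.continuous.comp continuous_projIcc).intervalIntegrable _ _
      map_smul' := by
        intro c x
        ext t
        simp }
    1 (by
      intro ψ
      rw [one_mul, ContinuousMap.norm_le _ (norm_nonneg _)]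
      intro t
      simp only [LinearMap.coe_mk, AddHom.coe_mk, ContinuousMap.coe_mk]
      have h := intervalIntegral.norm_integral_le_of_norm_le_const (a := (0 : ℝ)) (b := t)
        (f := fun s => ψ (projIcc 0 1 zero_le_one s)) (C := ‖ψ‖)
        (fun s _ => ψ.norm_coe_le_norm _)
      refine h.trans ?_
      rw [sub_zero, abs_of_nonneg t.2.1]
      exact mul_le_of_le_one_right (norm_nonneg _) t.2.2)

theorem prim_apply (ψ : C(I, W)) (t : I) :
    prim ψ t = ∫ s in (0 : ℝ)..t, ψ (projIcc 0 1 zero_le_one s) := rfl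

/-- Differentiable solutions of analytic autonomous differential equations are analytic. -/
theorem ode_vec [CompleteSpace W] (F : W → W) (Y : ℝ → W) (x₀ : ℝ)
    (hF : AnalyticAt ℝ F (Y x₀)) (hY : ∀ᶠ x in 𝓝 x₀, HasDerivAt Y (F (Y x)) x) :
    AnalyticAt ℝ Y x₀ := by
  obtain ⟨r, P, hr, hP1, hP2⟩ := nem_const (X := I) F (Y x₀) hF
  set H : ℝ × C(I, W) → ℝ × C(I, W) := fun p => (p.1, p.2 - p.1 • prim (P p.2)) with hH
  have hH0 : H 0 = 0 := by
    simp [hH]
  have hPan : AnalyticAt ℝ P (0 : C(I, W)) := hP1 _ (by rw [norm_zero]; exact hr)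
  have hPan2 : AnalyticAt ℝ (fun p : ℝ × C(I, W) => prim (P p.2)) 0 := by
    have h1 : AnalyticAt ℝ (fun p : ℝ × C(I, W) => P p.2) 0 :=
      AnalyticAt.comp (x := (0 : ℝ × C(I, W))) (f := fun p : ℝ × C(I, W) => p.2) hPan analyticAt_snd
    exact (prim.analyticAt _).comp h1
  have hHan : AnalyticAt ℝ H 0 :=
    analyticAt_fst.prod (analyticAt_snd.sub (analyticAt_fst.smul hPan2))
  set e : (ℝ × C(I, W)) ≃L[ℝ] (ℝ × C(I, W)) := ContinuousLinearEquiv.equivOfInverse
    ((ContinuousLinearMap.fst ℝ ℝ C(I, W)).prod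
      (ContinuousLinearMap.snd ℝ ℝ C(I, W) -
        (ContinuousLinearMap.fst ℝ ℝ C(I, W)).smulRight (prim (P 0))))
    ((ContinuousLinearMap.fst ℝ ℝ C(I, W)).prod
      (ContinuousLinearMap.snd ℝ ℝ C(I, W) +
        (ContinuousLinearMap.fst ℝ ℝ C(I, W)).smulRight (prim (P 0))))
    (by rintro ⟨y, z⟩; simp) (by rintro ⟨y, z⟩; simp) with he
  have hder : HasFDerivAt H (e : (ℝ × C(I, W)) →L[ℝ] (ℝ × C(I, W))) 0 := by
    have h1 : HasFDerivAt (fun p : ℝ × C(I, W) => prim (P p.2))
        (fderiv ℝ (fun p : ℝ × C(I, W) => prim (P p.2)) 0) 0 := hPan2.differentiableAt.hasFDerivAt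
    have h3 := (hasFDerivAt_fst (𝕜 := ℝ) (p := (0 : ℝ × C(I, W)))).smul h1
    have h4 := (hasFDerivAt_fst (𝕜 := ℝ) (p := (0 : ℝ × C(I, W)))).prodMk
      ((hasFDerivAt_snd (𝕜 := ℝ) (p := (0 : ℝ × C(I, W)))).sub h3)
    refine h4.congr_fderiv ?_
    ext p <;> simp [he]
  have hinv := (hHan.contDiffAt (n := ω)).to_localInverse hder (by simp)
  have hleft : ∀ᶠ p in 𝓝 (0 : ℝ × C(I, W)),
      (hHan.contDiffAt (n := ω)).localInverse hder (by simp) (H p) = p :=
    HasStrictFDerivAt.eventually_left_inverse _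
  rw [hH0] at hinv
  -- the solution
  classical
  set η : ℝ → C(I, W) := fun y => if h : Continuous (fun t : I => Y (x₀ + (t : ℝ) * y) - Y x₀) then
    ⟨_, h⟩ else 0 with hη
  obtain ⟨δ, hδ, hball⟩ := Metric.eventually_nhds_iff_ball.1 hY
  have hcont : ∀ y, ‖y‖ < δ → Continuous (fun t : I => Y (x₀ + (t : ℝ) * y) - Y x₀) := by
    intro y hy
    apply Continuous.sub _ continuous_const
    have h1 : ContinuousOn Y (ball x₀ δ) := fun x hx =>
      (hball x hx).continuousAt.continuousWithinAt
    apply h1.comp_continuous (by fun_prop)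
    intro t
    rw [mem_ball_iff_norm, add_sub_cancel_left, norm_mul, Real.norm_of_nonneg t.2.1]
    exact (mul_le_of_le_one_left (norm_nonneg _) t.2.2).trans_lt hy
  have hηa : ∀ y, ‖y‖ < δ → ∀ t : I, η y t = Y (x₀ + (t : ℝ) * y) - Y x₀ := by
    intro y hy t
    simp only [hη]
    rw [dif_pos (hcont y hy)]
    rfl
  have hηt : Tendsto η (𝓝 0) (𝓝 0) := by
    rw [Metric.tendsto_nhds_nhds]
    intro ε hε
    have h1 : ContinuousAt Y x₀ := (hball x₀ (mem_ball_self hδ)).continuousAt
    rw [Metric.continuousAt_iff] at h1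
    obtain ⟨δ', hδ', h2⟩ := h1 (ε / 2) (by positivity)
    refine ⟨min δ δ', lt_min hδ hδ', ?_⟩
    intro y hy
    rw [dist_zero_right] at hy
    rw [dist_zero_right]
    refine lt_of_le_of_lt (b := ε / 2) ?_ (by linarith)
    rw [ContinuousMap.norm_le _ (by positivity)]
    intro t
    rw [hηa y (hy.trans_le (min_le_left _ _)), ← dist_eq_norm]
    apply le_of_lt
    apply h2
    rw [dist_eq_norm, add_sub_cancel_left, norm_mul, Real.norm_of_nonneg t.2.1]
    exact (mul_le_of_le_one_left (norm_nonneg _) t.2.2).trans_lt (hy.trans_le (min_le_right _ _))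
  have hpair : Tendsto (fun y : ℝ => ((y, η y) : ℝ × C(I, W))) (𝓝 0) (𝓝 0) := by
    have : Tendsto (fun y : ℝ => ((y, η y) : ℝ × C(I, W))) (𝓝 0) (𝓝 ((0 : ℝ), (0 : C(I, W)))) :=
      tendsto_id.prodMk_nhds hηt
    exact this
  have heq : ∀ᶠ y in 𝓝 (0 : ℝ), H (y, η y) = (y, 0) := by
    have hn : ∀ᶠ y in 𝓝 (0 : ℝ), ‖η y‖ < r := by
      have h1 := hηt.norm
      rw [norm_zero] at h1
      exact h1.eventually (gt_mem_nhds hr)
    have hy2 : ∀ᶠ y in 𝓝 (0 : ℝ), ‖y‖ < δ := by
      have : ∀ᶠ y in 𝓝 (0 : ℝ), y ∈ ball (0 : ℝ) δ := ball_mem_nhds _ hδ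
      filter_upwards [this] with y hy
      simpa using hy
    filter_upwards [hn, hy2] with y hy1 hy2
    simp only [hH]
    congr 1
    rw [sub_eq_zero]
    ext t
    rw [ContinuousMap.smul_apply, prim_apply, hηa y hy2]
    have h1 : ∀ s ∈ Icc (0 : ℝ) 1, HasDerivAt (fun s => Y (x₀ + s * y))
        (y • F (Y (x₀ + s * y))) s := by
      intro s hs
      have h2 : HasDerivAt (fun s : ℝ => x₀ + s * y) y s := by
        simpa using ((hasDerivAt_id s).mul_const y).const_add x₀
      have h3 : x₀ + s * y ∈ ball x₀ δ := by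
        rw [mem_ball_iff_norm, add_sub_cancel_left, norm_mul, Real.norm_of_nonneg hs.1]
        exact (mul_le_of_le_one_left (norm_nonneg _) hs.2).trans_lt hy2
      exact (hball _ h3).scomp s h2
    have h2 : ∀ s ∈ Icc (0 : ℝ) 1, P (η y) (projIcc 0 1 zero_le_one s)
        = F (Y (x₀ + s * y)) := by
      intro s hs
      rw [hP2 _ hy1, hηa y hy2, projIcc_of_mem _ hs]
      simp
    have h0t : Icc (0 : ℝ) t ⊆ Icc 0 1 := Icc_subset_Icc_right t.2.2
    have hsub : uIcc (0 : ℝ) t ⊆ Icc 0 1 := by rw [uIcc_of_le t.2.1]; exact h0t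
    rw [← intervalIntegral.integral_smul]
    rw [intervalIntegral.integral_congr (g := fun s => y • F (Y (x₀ + s * y)))
      (fun s hs => by simp only; rw [h2 s (hsub hs)])]
    rw [intervalIntegral.integral_eq_sub_of_hasDerivAt (fun s hs => h1 s (hsub hs))]
    · simp
    · apply ContinuousOn.intervalIntegrable
      have h3 : Continuous (fun s : ℝ => y • P (η y) (projIcc 0 1 zero_le_one s)) :=
        ((ContinuousMap.continuous _).comp continuous_projIcc).const_smul y
      exact h3.continuousOn.congr (fun s hs => by simp only; rw [h2 s (hsub hs)])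
  have hfin : ∀ᶠ y in 𝓝 (0 : ℝ),
      (hHan.contDiffAt (n := ω)).localInverse hder (by simp) (y, 0) = (y, η y) := by
    filter_upwards [heq, hpair.eventually hleft] with y h1 h2
    rw [← h1]
    exact h2
  have hηan : AnalyticAt ℝ η 0 := by
    have h1 : AnalyticAt ℝ (fun y : ℝ => ((hHan.contDiffAt (n := ω)).localInverse hder (by simp)
        (y, 0)).2) 0 := by
      have h2 := hinv.analyticAt
      have h3 : AnalyticAt ℝ (fun y : ℝ => ((y, 0) : ℝ × C(I, W))) 0 :=
        AnalyticAt.prod analyticAt_id analyticAt_const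
      have h4 := AnalyticAt.comp (x := (0 : ℝ)) (f := fun y : ℝ => ((y, 0) : ℝ × C(I, W))) h2 h3
      exact analyticAt_snd.comp h4
    apply h1.congr
    filter_upwards [hfin] with y hy
    rw [hy]
  have hlast : AnalyticAt ℝ (fun x : ℝ => Y x₀ + η (x - x₀) 1) x₀ := by
    apply AnalyticAt.add analyticAt_const
    have h1 : AnalyticAt ℝ (fun x : ℝ => x - x₀) x₀ := analyticAt_id.sub analyticAt_const
    have h2 : AnalyticAt ℝ η (x₀ - x₀) := by rw [sub_self]; exact hηan
    have h3 := AnalyticAt.comp (f := fun x : ℝ => x - x₀) h2 h1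
    exact ((ContinuousMap.evalCLM ℝ (1 : I)).analyticAt _).comp h3
  apply hlast.congr
  have : ∀ᶠ x in 𝓝 x₀, x ∈ ball x₀ δ := ball_mem_nhds _ hδ
  filter_upwards [this] with x hx
  rw [hηa (x - x₀) (by rwa [← mem_ball_iff_norm])]
  simp

end Pool.Agent.Run7.h506.LF
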