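import Pool.Agent.Run7.h506.LF.Glob

/-!
# The conclusion: the leaves are homothetic ellipses
-/

set_option autoImplicit false

open Set Filter Topology
open scoped ContDiff

namespace Pool.Agent.Run7.h506.LF

variable {f : E → ℝ} {A : E →L[ℝ] E} {Φ : ℝ → E →L[ℝ] E}

theorem preconn : IsPreconnected {x : E | x ≠ 0} := by
  have h1 : 1 < Module.rank ℝ E := by
    rw [← Module.finrank_eq_rank]
    have : Module.finrank ℝ E = 2 := by simp
    rw [this]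
    exact_mod_cast one_lt_two
  exact (isConnected_compl_singleton_of_one_lt_rank h1 (0 : E)).isPreconnected

theorem const_of {s : E → ℝ} (hs : Sm s) (h0 : ∀ x, x ≠ 0 → ∀ w, fderiv ℝ s x w = 0)
    {x y : E} (hx : x ≠ 0) (hy : y ≠ 0) : s x = s y := by
  apply isOpen_ne.is_const_of_fderiv_eq_zero preconn (𝕜 := ℝ)
    (fun z hz => (hs.diff hz).differentiableAt.differentiableWithinAt) _ hx hy
  intro z hz
  ext
  · simpa using h0 z hz _
  · simpa using h0 z hz _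

/-- all invariants are constant -/
theorem Fol.consts (h : Fol f A Φ) (hp : Proj f) : ∃ N0 P0 : ℝ, 2 * P0 = 2 * N0 ^ 2 + tr A ∧
    ∀ x, x ≠ 0 → NN f A x = N0 ∧ pp f A x = P0 ∧ XX f A x = N0 * P0 := by
  have hg : ∀ x, x ≠ 0 → gg f x = 0 := fun x hx => h.gg_zero hp hx
  have hzero : ∀ (s : E → ℝ), (∀ x, x ≠ 0 → s x = 0) → ∀ x, x ≠ 0 → fderiv ℝ s x = 0 := by
    intro s hs x hx
    have : s =ᶠ[𝓝 x] fun _ => (0 : ℝ) := by
      filter_upwards [isOpen_ne.mem_nhds hx] with y hy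
      exact hs y hy
    rw [this.fderiv_eq]
    simp
  have hh0 : ∀ x, x ≠ 0 → hh f x = 0 := by
    intro x hx
    unfold hh
    rw [hzero _ hg x hx]
    simp
  have het : ∀ x, x ≠ 0 → et f x = 0 := by
    intro x hx
    unfold et
    rw [hzero _ hh0 x hx]
    simp
  have hX : ∀ x, x ≠ 0 → XX f A x = 5 * NN f A x * pp f A x - 4 * NN f A x ^ 3
      - 2 * NN f A x * tr A := by
    intro x hx
    have h1 := h.fiveU hp hx
    rw [het x hx, hg x hx, hh0 x hx] at h1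
    unfold etp c50 c40 lN at h1
    linear_combination (-1 / 3) * h1
  -- the derivative of `N` along the leaves
  have hs1 : Sm (fun x => 2 * pp f A x - 2 * NN f A x ^ 2 - tr A) :=
    ((contDiffOn_const.mul h.sm_pp).sub (contDiffOn_const.mul (ContDiffOn.pow h.sm_NN 2))).sub
      contDiffOn_const
  have hN1 : ∀ x, x ≠ 0 → fderiv ℝ (NN f A) x (ee f x)
      = 2 * pp f A x - 2 * NN f A x ^ 2 - tr A := by
    intro x hx
    rw [h.L_NN hx, hg x hx]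
    ring
  have hD : ∀ x, x ≠ 0 → ∀ w,
      fderiv ℝ (fun x => 2 * pp f A x - 2 * NN f A x ^ 2 - tr A) x w = 0 := by
    intro x hx w
    have a1 := h.sm_pp.diff hx
    have a2 := h.sm_NN.diff hx
    have a3 := ((a1.const_mul 2).sub ((a2.pow 2).const_mul 2)).sub_const (tr A)
    have a4 : fderiv ℝ (fun x => 2 * pp f A x - 2 * NN f A x ^ 2 - tr A) x w
        = 2 * fderiv ℝ (pp f A) x w - 4 * NN f A x * fderiv ℝ (NN f A) x w := by
      have a5 := congrArg (fun B : E →L[ℝ] ℝ => B w) a3.fderiv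
      refine Eq.trans a5 ?_
      simp only [_root_.sub_apply, _root_.smul_apply, smul_eq_mul, nsmul_eq_mul]
      push_cast
      ring
    rw [a4, h.inv_w h.sm_pp h.inv_pp hx, h.inv_w h.sm_NN h.inv_NN hx, h.L_pp hx, hN1 x hx,
      hX x hx]
    ring
  -- a maximum point of `N`
  obtain ⟨x0, hx0, hmax⟩ : ∃ x0 : E, x0 ≠ 0 ∧ ∀ x, x ≠ 0 → NN f A x ≤ NN f A x0 := by
    have hS : IsCompact (Metric.sphere (0 : E) 1) := isCompact_sphere 0 1
    have hsub : Metric.sphere (0 : E) 1 ⊆ {x | x ≠ 0} := by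
      intro x hx h0
      rw [mem_sphere_zero_iff_norm, h0, norm_zero] at hx
      norm_num at hx
    have hne : (Metric.sphere (0 : E) 1).Nonempty := ⟨((1, 0) : E), by
      rw [mem_sphere_zero_iff_norm, Prod.norm_def]; simp⟩
    obtain ⟨x0, hx0, hm⟩ := hS.exists_isMaxOn hne (h.sm_NN.continuousOn.mono hsub)
    refine ⟨x0, hsub hx0, ?_⟩
    intro x hx
    obtain ⟨t, ht⟩ := h.flow.meets hx
    rw [← h.inv_NN t x hx]
    exact hm (by rw [mem_sphere_zero_iff_norm]; exact ht)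
  have hn1 : ∀ x, x ≠ 0 → 2 * pp f A x - 2 * NN f A x ^ 2 - tr A = 0 := by
    intro x hx
    have h1 := const_of hs1 hD hx hx0
    rw [h1, ← hN1 x0 hx0]
    have hloc : IsLocalMax (NN f A) x0 := by
      filter_upwards [isOpen_ne.mem_nhds hx0] with y hy
      exact hmax y hy
    rw [hloc.fderiv_eq_zero]
    simp
  have hNc : ∀ x, x ≠ 0 → NN f A x = NN f A x0 := by
    intro x hx
    apply const_of h.sm_NN _ hx hx0
    intro z hz w
    rw [h.inv_w h.sm_NN h.inv_NN hz, hN1 z hz, hn1 z hz, mul_zero]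
  refine ⟨NN f A x0, pp f A x0, ?_, ?_⟩
  · linarith [hn1 x0 hx0]
  · intro x hx
    have e1 := hNc x hx
    have e2 : pp f A x = pp f A x0 := by
      have b1 := hn1 x hx
      have b2 := hn1 x0 hx0
      rw [e1] at b1
      linarith
    refine ⟨e1, e2, ?_⟩
    rw [hX x hx, e1, e2]
    have b2 := hn1 x0 hx0
    linear_combination 2 * NN f A x0 * b2

/-- the Hessian of `exp (τ f)` is constant -/
theorem Fol.hess (h : Fol f A Φ) {N0 P0 : ℝ} (hq : 2 * P0 = 2 * N0 ^ 2 + tr A)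
    (hc : ∀ x, x ≠ 0 → NN f A x = N0 ∧ pp f A x = P0 ∧ XX f A x = N0 * P0)
    (hg : ∀ x, x ≠ 0 → gg f x = 0) (y : E) {x x0 : E} (hx : x ≠ 0) (hx0 : x0 ≠ 0) :
    Real.exp (tr A * f x) * (mm f A x y ^ 2 - 2 * N0 * mm f A x y * fderiv ℝ f x y
      + P0 * fderiv ℝ f x y ^ 2)
    = Real.exp (tr A * f x0) * (mm f A x0 y ^ 2 - 2 * N0 * mm f A x0 y * fderiv ℝ f x0 y
      + P0 * fderiv ℝ f x0 y ^ 2) := by
  have sm1 : Sm (fun x => mm f A x y) := by
    unfold mm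
    apply ContDiffOn.mul h.sm_rr.neg
    apply ContDiff.contDiffOn
    unfold dt
    have a2 : ContDiff ℝ ∞ (fun x => A x) := A.contDiff
    exact (contDiff_const.mul a2.snd).sub (contDiff_const.mul a2.fst)
  have sm2 : Sm (fun x => fderiv ℝ f x y) := h.sm.fderiv.clm_const y
  have sm3 : Sm (fun x => Real.exp (tr A * f x)) :=
    ContDiffOn.exp (contDiffOn_const.mul h.sm)
  have sm4 : Sm (fun x => Real.exp (tr A * f x) * (mm f A x y ^ 2
      - 2 * N0 * mm f A x y * fderiv ℝ f x y + P0 * fderiv ℝ f x y ^ 2)) :=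
    ContDiffOn.mul sm3 (((ContDiffOn.pow sm1 2).sub ((contDiffOn_const.mul sm1).mul sm2)).add
      (contDiffOn_const.mul (ContDiffOn.pow sm2 2)))
  refine const_of sm4 ?_ hx hx0
  intro z hz w
  have hz' : z + (0 : ℝ) • w ≠ 0 := by simpa using hz
  have e0 : z + (0 : ℝ) • w = z := by simp
  have d0 := sm4.line hz'
  have hl : HasDerivAt (fun u : ℝ => z + u • w) w 0 := by
    simpa using ((hasDerivAt_id (0 : ℝ)).smul_const w).const_add z
  obtain ⟨h2, h3⟩ := h.mm_w hz' y w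
  have d1' := h2.comp_hasDerivAt (0 : ℝ) hl
  have d1 : HasDerivAt (fun u : ℝ => mm f A (z + u • w) y) _ 0 := HasDerivAt.congr_deriv d1' h3
  have d2 := sm2.line hz'
  rw [fd_const h.sm.fderiv hz'] at d2
  have d3 := (((h.dF hz').const_mul (tr A)).exp)
  have d4 := d3.fun_mul (((d1.fun_pow 2).fun_sub ((d1.const_mul (2 * N0)).fun_mul d2)).fun_add
    ((d2.fun_pow 2).const_mul P0))
  have d5 := d0.unique d4
  rw [e0] at d5
  rw [d5]
  have e1 : (fderiv ℝ (fderiv ℝ f) z) w y = Hs f z w y := rfl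
  rw [e1, h.H_exp hz]
  obtain ⟨c1, c2, c3⟩ := hc z hz
  rw [c1, c2, c3, hg z hz]
  push_cast
  linear_combination (Real.exp (tr A * f z) * fderiv ℝ f z w * (P0 * fderiv ℝ f z y ^ 2
    - mm f A z y ^ 2)) * hq

theorem Fol.main (h : Fol f A Φ) (hp : Proj f) : ∃ a b c : ℝ, 0 < a ∧ b ^ 2 < a * c ∧
    ∀ x y : ℝ, ((x, y) : E) ≠ 0 →
      Real.exp (tr A * f (x, y)) = a * x ^ 2 + 2 * b * x * y + c * y ^ 2 := by
  obtain ⟨N0, P0, hq, hc⟩ := h.consts hp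
  have hg : ∀ x, x ≠ 0 → gg f x = 0 := fun x hx => h.gg_zero hp hx
  have hP0 : 0 < P0 := by
    have := h.flow.tr_pos
    nlinarith [sq_nonneg N0]
  obtain ⟨x0, hx0⟩ : ∃ x0 : E, x0 ≠ 0 := ⟨(1, 0), by simp⟩
  obtain ⟨E0, hE0⟩ : ∃ E0 : ℝ, E0 = Real.exp (tr A * f x0) := ⟨_, rfl⟩
  obtain ⟨α1, hα1⟩ : ∃ α1 : ℝ, α1 = mm f A x0 (A (1, 0)) := ⟨_, rfl⟩
  obtain ⟨α2, hα2⟩ : ∃ α2 : ℝ, α2 = mm f A x0 (A (0, 1)) := ⟨_, rfl⟩
  obtain ⟨β1, hβ1⟩ : ∃ β1 : ℝ, β1 = fderiv ℝ f x0 (A (1, 0)) := ⟨_, rfl⟩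
  obtain ⟨β2, hβ2⟩ : ∃ β2 : ℝ, β2 = fderiv ℝ f x0 (A (0, 1)) := ⟨_, rfl⟩
  have key : ∀ x y : ℝ, ((x, y) : E) ≠ 0 → Real.exp (tr A * f (x, y)) =
      (E0 / P0 * (α1 ^ 2 - 2 * N0 * α1 * β1 + P0 * β1 ^ 2)) * x ^ 2
      + 2 * (E0 / P0 * (α1 * α2 - N0 * (α1 * β2 + α2 * β1) + P0 * β1 * β2)) * x * y
      + (E0 / P0 * (α2 ^ 2 - 2 * N0 * α2 * β2 + P0 * β2 ^ 2)) * y ^ 2 := by
    intro x y hxy
    have h1 := h.hess hq hc hg (A (x, y)) hxy hx0
    rw [mm_Ax, h.f_Ax hxy] at h1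
    have h2 : mm f A x0 (A (x, y)) = x * α1 + y * α2 := by
      rw [map_eq A (x, y), mm_add, mm_smul, mm_smul, hα1, hα2]
    have h3 : fderiv ℝ f x0 (A (x, y)) = x * β1 + y * β2 := by
      rw [map_eq A (x, y), map_add, map_smul, map_smul, hβ1, hβ2]
      rfl
    rw [h2, h3, ← hE0] at h1
    have h4 : Real.exp (tr A * f (x, y)) = E0 / P0 * ((x * α1 + y * α2) ^ 2
        - 2 * N0 * (x * α1 + y * α2) * (x * β1 + y * β2) + P0 * (x * β1 + y * β2) ^ 2) := by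
      field_simp
      linear_combination h1
    rw [h4]
    ring
  obtain ⟨a, ha⟩ : ∃ a : ℝ, a = E0 / P0 * (α1 ^ 2 - 2 * N0 * α1 * β1 + P0 * β1 ^ 2) := ⟨_, rfl⟩
  obtain ⟨b, hb⟩ : ∃ b : ℝ, b = E0 / P0 * (α1 * α2 - N0 * (α1 * β2 + α2 * β1)
    + P0 * β1 * β2) := ⟨_, rfl⟩
  obtain ⟨c, hcc⟩ : ∃ c : ℝ, c = E0 / P0 * (α2 ^ 2 - 2 * N0 * α2 * β2 + P0 * β2 ^ 2) := ⟨_, rfl⟩
  rw [← ha, ← hb, ← hcc] at key
  have ha0 : 0 < a := by
    have h1 := key 1 0 (by simp)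
    have h2 := Real.exp_pos (tr A * f (1, 0))
    rw [h1] at h2
    linarith
  refine ⟨a, b, c, ha0, ?_, key⟩
  have h1 := key (-b) a (by
    intro h0
    have := congrArg Prod.snd h0
    simp only [Prod.snd_zero] at this
    linarith)
  have h2 := Real.exp_pos (tr A * f (-b, a))
  rw [h1] at h2
  have h3 : a * (-b) ^ 2 + 2 * b * (-b) * a + c * a ^ 2 = a * (a * c - b ^ 2) := by ring
  rw [h3] at h2
  have := (mul_pos_iff_of_pos_left ha0).1 h2
  linarith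

end Pool.Agent.Run7.h506.LF
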