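import Mathlib

/-!
# Expanding one-parameter groups of linear maps of the plane
-/

set_option autoImplicit false

open Set Filter Topology

namespace Pool.Agent.Run7.h506.LF

abbrev E := ℝ × ℝ

/-- the determinant of two vectors -/
def dt (a b : E) : ℝ := a.1 * b.2 - a.2 * b.1

/-- trace -/
def tr (A : E →L[ℝ] E) : ℝ := (A (1, 0)).1 + (A (0, 1)).2

/-- determinant -/
def de (A : E →L[ℝ] E) : ℝ := dt (A (1, 0)) (A (0, 1))

theorem map_eq (B : E →L[ℝ] E) (a : E) : B a = a.1 • B (1, 0) + a.2 • B (0, 1) := by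
  conv_lhs => rw [show a = a.1 • ((1, 0) : E) + a.2 • ((0, 1) : E) by ext <;> simp]
  rw [map_add, map_smul, map_smul]

theorem map_eq' (B : E →L[ℝ] ℝ) (a : E) : B a = a.1 * B (1, 0) + a.2 * B (0, 1) := by
  conv_lhs => rw [show a = a.1 • ((1, 0) : E) + a.2 • ((0, 1) : E) by ext <;> simp]
  rw [map_add, map_smul, map_smul]
  simp

theorem dt_map (B : E →L[ℝ] E) (a b : E) : dt (B a) (B b) = de B * dt a b := by
  rw [map_eq B a, map_eq B b]
  unfold de dt
  simp only [Prod.fst_add, Prod.snd_add, Prod.smul_fst, Prod.smul_snd, smul_eq_mul]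
  ring

theorem dt_tr (A : E →L[ℝ] E) (a b : E) : dt (A a) b + dt a (A b) = tr A * dt a b := by
  rw [map_eq A a, map_eq A b]
  unfold tr dt
  simp only [Prod.fst_add, Prod.snd_add, Prod.smul_fst, Prod.smul_snd, smul_eq_mul]
  ring

theorem cayley (A : E →L[ℝ] E) (a : E) : A (A a) = tr A • A a - de A • a := by
  have h1 := map_eq A a
  have h2 := map_eq A (A a)
  rw [h2]
  ext
  · rw [Prod.fst_sub, Prod.smul_fst, Prod.smul_fst, h1]
    unfold tr de dt
    simp only [Prod.fst_add, Prod.snd_add, Prod.smul_fst, Prod.smul_snd, smul_eq_mul]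
    ring
  · rw [Prod.snd_sub, Prod.smul_snd, Prod.smul_snd, h1]
    unfold tr de dt
    simp only [Prod.fst_add, Prod.snd_add, Prod.smul_fst, Prod.smul_snd, smul_eq_mul]
    ring

theorem dt_decomp (a b w : E) : dt a b • w = dt w b • a + dt a w • b := by
  unfold dt
  ext
  · simp only [Prod.fst_add, Prod.smul_fst, smul_eq_mul]; ring
  · simp only [Prod.snd_add, Prod.smul_snd, smul_eq_mul]; ring

theorem dt_add_left (a b c : E) : dt (a + b) c = dt a c + dt b c := by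
  unfold dt; simp only [Prod.fst_add, Prod.snd_add]; ring

theorem dt_add_right (a b c : E) : dt a (b + c) = dt a b + dt a c := by
  unfold dt; simp only [Prod.fst_add, Prod.snd_add]; ring

theorem dt_smul_left (k : ℝ) (a b : E) : dt (k • a) b = k * dt a b := by
  unfold dt; simp only [Prod.smul_fst, Prod.smul_snd, smul_eq_mul]; ring

theorem dt_smul_right (k : ℝ) (a b : E) : dt a (k • b) = k * dt a b := by
  unfold dt; simp only [Prod.smul_fst, Prod.smul_snd, smul_eq_mul]; ring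

theorem dt_self (a : E) : dt a a = 0 := by unfold dt; ring

theorem dt_swap (a b : E) : dt a b = - dt b a := by unfold dt; ring

/-- expanding one-parameter group with the generator `A` -/
structure IsFlow (A : E →L[ℝ] E) (Φ : ℝ → E →L[ℝ] E) : Prop where
  zero : ∀ x, Φ 0 x = x
  add : ∀ s t x, Φ (s + t) x = Φ s (Φ t x)
  der : ∀ t, HasDerivAt Φ (A.comp (Φ t)) t
  comm : ∀ t x, A (Φ t x) = Φ t (A x)
  lim : Tendsto Φ atBot (𝓝 0)

theorem exp_isFlow (A : E →L[ℝ] E)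
    (h : Tendsto (fun t : ℝ => NormedSpace.exp (t • A)) atBot (𝓝 0)) :
    IsFlow A (fun t : ℝ => NormedSpace.exp (t • A)) where
  zero := by intro x; simp
  add := by
    intro s t x
    letI : NormedAlgebra ℚ (E →L[ℝ] E) := NormedAlgebra.restrictScalars ℚ ℝ _
    rw [add_smul, NormedSpace.exp_add_of_commute]
    · rfl
    · exact ((Commute.refl A).smul_left s).smul_right t
  der := by
    intro t
    exact hasDerivAt_exp_smul_const' A t
  comm := by
    intro t x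
    have h1 : Commute A (NormedSpace.exp (t • A)) := ((Commute.refl A).smul_right t).exp_right
    exact congrArg (fun B : E →L[ℝ] E => B x) h1.eq
  lim := h

section

variable {A : E →L[ℝ] E} {Φ : ℝ → E →L[ℝ] E}

theorem IsFlow.inv (h : IsFlow A Φ) (t : ℝ) (x : E) : Φ (-t) (Φ t x) = x := by
  rw [← h.add, neg_add_cancel, h.zero]

theorem IsFlow.inv' (h : IsFlow A Φ) (t : ℝ) (x : E) : Φ t (Φ (-t) x) = x := by
  rw [← h.add, add_neg_cancel, h.zero]

theorem IsFlow.ne (h : IsFlow A Φ) (t : ℝ) {x : E} (hx : x ≠ 0) : Φ t x ≠ 0 := by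
  intro h1
  apply hx
  rw [← h.inv t x, h1, map_zero]

theorem IsFlow.cont (h : IsFlow A Φ) : Continuous Φ :=
  continuous_iff_continuousAt.2 fun t => (h.der t).continuousAt

theorem IsFlow.derV (h : IsFlow A Φ) (t : ℝ) (x : E) :
    HasDerivAt (fun t => Φ t x) (A (Φ t x)) t := by
  have := (h.der t).clm_apply (hasDerivAt_const t x)
  simpa using this

theorem IsFlow.de_add (h : IsFlow A Φ) (s t : ℝ) : de (Φ (s + t)) = de (Φ s) * de (Φ t) := by
  have h1 : de (Φ (s + t)) = dt (Φ s (Φ t (1, 0))) (Φ s (Φ t (0, 1))) := by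
    unfold de; rw [h.add, h.add]
  rw [h1, dt_map]
  rfl

theorem IsFlow.de_zero (h : IsFlow A Φ) : de (Φ 0) = 1 := by
  unfold de; rw [h.zero, h.zero]; unfold dt; norm_num

theorem IsFlow.de_pos (h : IsFlow A Φ) (t : ℝ) : 0 < de (Φ t) := by
  have h1 : de (Φ t) = de (Φ (t / 2)) * de (Φ (t / 2)) := by rw [← h.de_add]; congr 2; ring
  have h2 : de (Φ (t / 2)) * de (Φ (-(t / 2))) = 1 := by
    rw [← h.de_add, add_neg_cancel, h.de_zero]
  have h3 : de (Φ (t / 2)) ≠ 0 := left_ne_zero_of_mul_eq_one h2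
  rw [h1]
  exact mul_self_pos.2 h3

theorem IsFlow.de_der (h : IsFlow A Φ) (t : ℝ) :
    HasDerivAt (fun t => de (Φ t)) (tr A * de (Φ t)) t := by
  have h1 := h.derV t (1, 0)
  have h2 := h.derV t (0, 1)
  have h3 : HasDerivAt (fun t => dt (Φ t (1, 0)) (Φ t (0, 1)))
      (dt (A (Φ t (1, 0))) (Φ t (0, 1)) + dt (Φ t (1, 0)) (A (Φ t (0, 1)))) t := by
    have a1 := (ContinuousLinearMap.fst ℝ ℝ ℝ).hasFDerivAt.comp_hasDerivAt t h1
    have a2 := (ContinuousLinearMap.snd ℝ ℝ ℝ).hasFDerivAt.comp_hasDerivAt t h1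
    have b1 := (ContinuousLinearMap.fst ℝ ℝ ℝ).hasFDerivAt.comp_hasDerivAt t h2
    have b2 := (ContinuousLinearMap.snd ℝ ℝ ℝ).hasFDerivAt.comp_hasDerivAt t h2
    have := (a1.mul b2).sub (a2.mul b1)
    refine this.congr_deriv ?_
    unfold dt
    simp
    ring
  rw [dt_tr] at h3
  exact h3

theorem IsFlow.de_lim (h : IsFlow A Φ) : Tendsto (fun t => de (Φ t)) atBot (𝓝 0) := by
  have h1 : Continuous (fun B : E →L[ℝ] E => de B) := by
    unfold de dt
    fun_prop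
  have h2 := (h1.tendsto 0).comp h.lim
  have h3 : de (0 : E →L[ℝ] E) = 0 := by unfold de dt; simp
  rw [h3] at h2
  exact h2

theorem IsFlow.tr_pos (h : IsFlow A Φ) : 0 < tr A := by
  by_contra hcon
  push Not at hcon
  have hanti : Antitone (fun t => de (Φ t)) := by
    apply antitone_of_deriv_nonpos
    · intro t; exact (h.de_der t).differentiableAt
    · intro t
      rw [(h.de_der t).deriv]
      exact mul_nonpos_of_nonpos_of_nonneg hcon (h.de_pos t).le
  have h1 : ∀ᶠ t in atBot, de (Φ t) < 1 := h.de_lim.eventually (gt_mem_nhds one_pos)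
  have h2 : ∀ᶠ t : ℝ in atBot, t ≤ 0 := eventually_le_atBot 0
  obtain ⟨t, h3, h4⟩ := (h1.and h2).exists
  have h5 := hanti h4
  simp only at h5
  rw [h.de_zero] at h5
  linarith

/-- the norms are bounded on left half lines -/
theorem IsFlow.bdd (h : IsFlow A Φ) (T : ℝ) : ∃ K : ℝ, 0 < K ∧ ∀ t ≤ T, ‖Φ t‖ ≤ K := by
  have h1 := h.lim.norm
  rw [norm_zero] at h1
  obtain ⟨T0, hT0⟩ := eventually_atBot.1 (h1.eventually (gt_mem_nhds one_pos))
  obtain ⟨K, hK⟩ := (isCompact_Icc (a := T0) (b := T)).exists_bound_of_continuousOn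
    (h.cont.continuousOn)
  refine ⟨max K 1, lt_of_lt_of_le one_pos (le_max_right _ _), ?_⟩
  intro t ht
  rcases le_total t T0 with h2 | h2
  · exact (hT0 t h2).le.trans (le_max_right _ _)
  · exact (hK t ⟨h2, ht⟩).trans (le_max_left _ _)

/-- every orbit meets the unit sphere -/
theorem IsFlow.meets (h : IsFlow A Φ) {x : E} (hx : x ≠ 0) : ∃ t : ℝ, ‖Φ t x‖ = 1 := by
  have hc : Continuous (fun t => ‖Φ t x‖) :=
    (h.cont.clm_apply continuous_const).norm
  have h0 : Tendsto (fun t => ‖Φ t x‖) atBot (𝓝 0) := by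
    have := (((ContinuousLinearMap.apply ℝ E x).continuous.tendsto (0 : E →L[ℝ] E)).comp
      h.lim).norm
    simpa using this
  obtain ⟨a, ha⟩ := (h0.eventually (gt_mem_nhds one_pos)).exists
  have hnx : 0 < ‖x‖ := norm_pos_iff.2 hx
  have h1 : ∀ᶠ t in atBot, ‖Φ t‖ < ‖x‖ := by
    have := h.lim.norm
    rw [norm_zero] at this
    exact this.eventually (gt_mem_nhds hnx)
  obtain ⟨b, hb⟩ := h1.exists
  have h2 : 1 ≤ ‖Φ (-b) x‖ := by
    have h3 : ‖x‖ ≤ ‖Φ b‖ * ‖Φ (-b) x‖ := by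
      conv_lhs => rw [← h.inv' b x]
      exact (Φ b).le_opNorm _
    by_contra hcon
    push Not at hcon
    have h4 : ‖Φ b‖ * ‖Φ (-b) x‖ ≤ ‖Φ b‖ * 1 := by gcongr
    linarith
  have h3 : (1 : ℝ) ∈ uIcc (‖Φ a x‖) (‖Φ (-b) x‖) := by
    rw [mem_uIcc]; left; exact ⟨ha.le, h2⟩
  obtain ⟨t, _, ht⟩ := intermediate_value_uIcc (hc.continuousOn (s := uIcc a (-b))) h3
  exact ⟨t, ht⟩

variable {f : E → ℝ}

/-- `f` is comparable with the time -/
theorem time_bdd (h : IsFlow A Φ) (hf : ContinuousOn f {x | x ≠ 0})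
    (hfl : ∀ t x, x ≠ 0 → f (Φ t x) = f x + t) :
    ∃ C : ℝ, 0 < C ∧ ∀ x, x ≠ 0 → ∃ (t : ℝ) (s : E), ‖s‖ = 1 ∧ x = Φ t s ∧ |f x - t| ≤ C := by
  have hS : IsCompact (Metric.sphere (0 : E) 1) := isCompact_sphere 0 1
  have hsub : Metric.sphere (0 : E) 1 ⊆ {x | x ≠ 0} := by
    intro x hx h0
    rw [mem_sphere_zero_iff_norm, h0, norm_zero] at hx
    norm_num at hx
  obtain ⟨C, hC⟩ := hS.exists_bound_of_continuousOn (hf.mono hsub)
  refine ⟨max C 1, lt_of_lt_of_le one_pos (le_max_right _ _), ?_⟩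
  intro x hx
  obtain ⟨t, ht⟩ := h.meets hx
  refine ⟨-t, Φ t x, ht, (h.inv t x).symm, ?_⟩
  have h1 : f (Φ t x) = f x + t := hfl t x hx
  have h2 := hC (Φ t x) (by rw [mem_sphere_zero_iff_norm]; exact ht)
  rw [Real.norm_eq_abs, h1] at h2
  rw [sub_neg_eq_add]
  exact h2.trans (le_max_left _ _)

theorem growth_zero (h : IsFlow A Φ) (hf : ContinuousOn f {x | x ≠ 0})
    (hfl : ∀ t x, x ≠ 0 → f (Φ t x) = f x + t) (M : ℝ) :
    ∃ ρ : ℝ, 0 < ρ ∧ ∀ x, x ≠ 0 → ‖x‖ < ρ → f x < M := by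
  obtain ⟨C, hC0, hC⟩ := time_bdd h hf hfl
  obtain ⟨K, hK0, hK⟩ := h.bdd (-(M - C))
  refine ⟨K⁻¹, by positivity, ?_⟩
  intro x hx hxn
  obtain ⟨t, s, hs, hxs, ht⟩ := hC x hx
  by_contra hcon
  push Not at hcon
  have h1 : M - C ≤ t := by
    have := abs_le.1 ht
    linarith [this.2]
  have h2 : ‖Φ (-t)‖ ≤ K := hK _ (by linarith)
  have h3 : (1 : ℝ) ≤ ‖Φ (-t)‖ * ‖x‖ := by
    rw [← hs]
    conv_lhs => rw [← h.inv t s, ← hxs]
    exact (Φ (-t)).le_opNorm _
  have h4 : ‖Φ (-t)‖ * ‖x‖ ≤ K * ‖x‖ := by gcongr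
  have h5 : K * ‖x‖ < K * K⁻¹ := by gcongr
  rw [mul_inv_cancel₀ hK0.ne'] at h5
  linarith

theorem growth_top (h : IsFlow A Φ) (hf : ContinuousOn f {x | x ≠ 0})
    (hfl : ∀ t x, x ≠ 0 → f (Φ t x) = f x + t) (M : ℝ) :
    ∃ R : ℝ, 0 < R ∧ ∀ x, x ≠ 0 → R < ‖x‖ → M < f x := by
  obtain ⟨C, hC0, hC⟩ := time_bdd h hf hfl
  obtain ⟨K, hK0, hK⟩ := h.bdd (M + C)
  refine ⟨K, hK0, ?_⟩
  intro x hx hxn
  obtain ⟨t, s, hs, hxs, ht⟩ := hC x hx
  by_contra hcon
  push Not at hcon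
  have h1 : t ≤ M + C := by
    have := abs_le.1 ht
    linarith [this.1]
  have h2 := (Φ t).le_opNorm s
  rw [← hxs, hs, mul_one] at h2
  linarith [hK t h1]

end

end Pool.Agent.Run7.h506.LF
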