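import Pool.Agent.Run7.h506.LF.Fl

/-!
# The moving frame of a foliation invariant under an expanding linear flow
-/

set_option autoImplicit false

open Set Filter Topology
open scoped ContDiff

namespace Pool.Agent.Run7.h506.LF

/-- `f` is the time function of the foliation -/
structure Fol (f : E → ℝ) (A : E →L[ℝ] E) (Φ : ℝ → E →L[ℝ] E) : Prop where
  flow : IsFlow A Φ
  smooth : ContDiffOn ℝ ∞ f {x | x ≠ 0}
  fl : ∀ t x, x ≠ 0 → f (Φ t x) = f x + t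
  curved : ∀ p v, p ≠ 0 → f p = 0 → v ≠ 0 → fderiv ℝ f p v = 0 →
      0 < deriv (deriv fun s : ℝ => f (p + s • v)) 0

/-- smooth on the punctured plane -/
def Sm {F : Type*} [NormedAddCommGroup F] [NormedSpace ℝ F] (s : E → F) : Prop :=
  ContDiffOn ℝ ∞ s {x | x ≠ 0}

section smooth

variable {F : Type*} [NormedAddCommGroup F] [NormedSpace ℝ F] {s : E → F}

theorem Sm.at' (hs : Sm s) {x : E} (hx : x ≠ 0) : ContDiffAt ℝ ∞ s x :=
  hs.contDiffAt (isOpen_ne.mem_nhds hx)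

theorem Sm.diff (hs : Sm s) {x : E} (hx : x ≠ 0) : HasFDerivAt s (fderiv ℝ s x) x :=
  ((hs.at' hx).differentiableAt (by simp)).hasFDerivAt

theorem Sm.fderiv (hs : Sm s) : Sm (fderiv ℝ s) :=
  ContDiffOn.fderiv_of_isOpen hs isOpen_ne (by simp)

theorem Sm.line (hs : Sm s) {p w : E} {u : ℝ} (hu : p + u • w ≠ 0) :
    HasDerivAt (fun u : ℝ => s (p + u • w)) (_root_.fderiv ℝ s (p + u • w) w) u := by
  have h1 : HasDerivAt (fun u : ℝ => p + u • w) w u := by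
    simpa using ((hasDerivAt_id u).smul_const w).const_add p
  exact (hs.diff hu).comp_hasDerivAt u h1

end smooth

theorem ev_ne {p w : E} {u : ℝ} (hu : p + u • w ≠ 0) : ∀ᶠ u' in 𝓝 u, p + u' • w ≠ 0 := by
  have h1 : Continuous (fun u : ℝ => p + u • w) := by fun_prop
  exact (isOpen_ne.preimage h1).mem_nhds hu

section defs

variable (f : E → ℝ) (A : E →L[ℝ] E)

/-- tangent vector of the leaf -/
noncomputable def vv (x : E) : E := (-fderiv ℝ f x (0, 1), fderiv ℝ f x (1, 0))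

/-- second derivative -/
noncomputable def Hs (x : E) : E →L[ℝ] E →L[ℝ] ℝ := fderiv ℝ (fderiv ℝ f) x

noncomputable def be (x : E) : ℝ := Hs f x (vv f x) (vv f x)

noncomputable def rr (x : E) : ℝ := Real.sqrt (be f x)

noncomputable def ee (x : E) : E := (rr f x)⁻¹ • vv f x

noncomputable def NN (x : E) : ℝ := fderiv ℝ f x (A (ee f x))

noncomputable def pp (x : E) : ℝ := tr A - fderiv ℝ f x (A (A x))

noncomputable def XX (x : E) : ℝ := rr f x * dt (A (A x)) (A x)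

noncomputable def gg (x : E) : ℝ := fderiv ℝ (rr f) x (ee f x) / rr f x

noncomputable def hh (x : E) : ℝ := fderiv ℝ (gg f) x (ee f x)

noncomputable def et (x : E) : ℝ := fderiv ℝ (hh f) x (ee f x)

/-- coefficient of `ee` -/
noncomputable def mm (x w : E) : ℝ := -rr f x * dt w (A x)

end defs

variable {f : E → ℝ} {A : E →L[ℝ] E} {Φ : ℝ → E →L[ℝ] E}

theorem dt_vv (x w : E) : dt w (vv f x) = fderiv ℝ f x w := by
  rw [map_eq' (fderiv ℝ f x) w]
  unfold dt vv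
  ring

theorem vv_dt (x w : E) : dt (vv f x) w = - fderiv ℝ f x w := by
  rw [dt_swap, dt_vv]

theorem f_vv (x : E) : fderiv ℝ f x (vv f x) = 0 := by
  rw [← dt_vv, dt_self]

/-- equivariance of the derivatives -/
theorem Fol.eqv (h : Fol f A Φ) {s1 s2 : E → ℝ} (h1 : Sm s1) (h2 : Sm s2) {t c k : ℝ}
    (he : ∀ y, y ≠ 0 → s1 (Φ t y) = c * s2 y + k) {x : E} (hx : x ≠ 0) (w : E) :
    fderiv ℝ s1 (Φ t x) (Φ t w) = c * fderiv ℝ s2 x w := by
  have a1 : HasFDerivAt (fun y => s1 (Φ t y)) ((fderiv ℝ s1 (Φ t x)).comp (Φ t)) x :=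
    (h1.diff (h.flow.ne t hx)).comp x (Φ t).hasFDerivAt
  have a2 : HasFDerivAt (fun y => c * s2 y + k) (c • fderiv ℝ s2 x) x :=
    ((h2.diff hx).const_mul c).add_const k
  have a3 : HasFDerivAt (fun y => s1 (Φ t y)) (c • fderiv ℝ s2 x) x := by
    apply a2.congr_of_eventuallyEq
    filter_upwards [isOpen_ne.mem_nhds hx] with y hy
    exact he y hy
  have a4 := a1.unique a3
  have a5 := congrArg (fun B : E →L[ℝ] ℝ => B w) a4
  simpa using a5

theorem Fol.sm (h : Fol f A Φ) : Sm f := h.smooth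

theorem Fol.f1_eqv (h : Fol f A Φ) {x : E} (hx : x ≠ 0) (t : ℝ) (w : E) :
    fderiv ℝ f (Φ t x) (Φ t w) = fderiv ℝ f x w := by
  have := h.eqv h.sm h.sm (t := t) (c := 1) (k := t)
    (fun y hy => by rw [h.fl t y hy, one_mul]) hx w
  rw [this, one_mul]

theorem Sm.clm_const {s : E → E →L[ℝ] ℝ} (hs : Sm s) (z : E) : Sm (fun x => s x z) :=
  ContDiffOn.clm_apply hs contDiffOn_const

theorem fd_const {s : E → E →L[ℝ] ℝ} (hs : Sm s) {x : E} (hx : x ≠ 0) (z w : E) :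
    fderiv ℝ (fun x => s x z) x w = fderiv ℝ s x w z := by
  have h1 : HasFDerivAt (fun x => s x z) ((ContinuousLinearMap.apply ℝ ℝ z).comp
      (fderiv ℝ s x)) x :=
    (ContinuousLinearMap.apply ℝ ℝ z).hasFDerivAt.comp x (hs.diff hx)
  rw [h1.fderiv]
  rfl

theorem Fol.H_eqv (h : Fol f A Φ) {x : E} (hx : x ≠ 0) (t : ℝ) (w z : E) :
    Hs f (Φ t x) (Φ t w) (Φ t z) = Hs f x w z := by
  have h1 : Sm (fun x => fderiv ℝ f x (Φ t z)) := h.sm.fderiv.clm_const _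
  have h2 : Sm (fun x => fderiv ℝ f x z) := h.sm.fderiv.clm_const _
  have := h.eqv h1 h2 (t := t) (c := 1) (k := 0)
    (fun y hy => by rw [h.f1_eqv hy, one_mul, add_zero]) hx w
  rw [fd_const h.sm.fderiv (h.flow.ne t hx), fd_const h.sm.fderiv hx, one_mul] at this
  exact this

theorem Fol.H_symm (h : Fol f A Φ) {x : E} (hx : x ≠ 0) (w z : E) :
    Hs f x w z = Hs f x z w := by
  have := (h.sm.at' hx).isSymmSndFDerivAt (by
    rw [minSmoothness_of_isRCLikeNormedField]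
    exact WithTop.coe_le_coe.2 (le_top : (2 : ℕ∞) ≤ ⊤))
  exact this w z

theorem dt_nondeg {y : E} (h : ∀ z, dt z y = 0) : y = 0 := by
  have h1 := h (1, 0)
  have h2 := h (0, 1)
  unfold dt at h1 h2
  ext
  · simpa using h2
  · simpa using h1

theorem Fol.vv_eqv (h : Fol f A Φ) {x : E} (hx : x ≠ 0) (t : ℝ) :
    vv f (Φ t x) = (de (Φ t))⁻¹ • Φ t (vv f x) := by
  have hd := (h.flow.de_pos t).ne'
  have h1 : vv f (Φ t x) - (de (Φ t))⁻¹ • Φ t (vv f x) = 0 := by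
    apply dt_nondeg
    intro z
    have h2 : z = Φ t (Φ (-t) z) := (h.flow.inv' t z).symm
    rw [sub_eq_add_neg, dt_add_right, ← neg_smul, dt_smul_right]
    rw [h2, dt_vv, h.f1_eqv hx, dt_map, dt_vv]
    field_simp
    ring
  exact sub_eq_zero.1 h1

theorem Fol.be_eqv (h : Fol f A Φ) {x : E} (hx : x ≠ 0) (t : ℝ) :
    be f (Φ t x) = ((de (Φ t))⁻¹) ^ 2 * be f x := by
  unfold be
  rw [h.vv_eqv hx]
  simp only [map_smul, _root_.smul_apply, smul_eq_mul, h.H_eqv hx]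
  ring

theorem Fol.f_Ax (h : Fol f A Φ) {x : E} (hx : x ≠ 0) : fderiv ℝ f x (A x) = 1 := by
  have h1 : HasDerivAt (fun t => f (Φ t x)) (fderiv ℝ f (Φ 0 x) (A (Φ 0 x))) 0 :=
    (h.sm.diff (h.flow.ne 0 hx)).comp_hasDerivAt 0 (h.flow.derV 0 x)
  rw [h.flow.zero] at h1
  have h2 : HasDerivAt (fun t : ℝ => f x + t) 1 0 := (hasDerivAt_id (0 : ℝ)).const_add _
  have h3 : (fun t => f (Φ t x)) = fun t => f x + t := funext fun t => h.fl t x hx
  rw [h3] at h1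
  exact h1.unique h2

theorem Fol.vv_Ax (h : Fol f A Φ) {x : E} (hx : x ≠ 0) : dt (vv f x) (A x) = -1 := by
  rw [vv_dt, h.f_Ax hx]

theorem Fol.vv_ne (h : Fol f A Φ) {x : E} (hx : x ≠ 0) : vv f x ≠ 0 := by
  intro h1
  have := h.vv_Ax hx
  rw [h1] at this
  unfold dt at this
  simp at this

/-- the second derivative along a line -/
theorem Fol.dd (h : Fol f A Φ) {x : E} (hx : x ≠ 0) (w : E) :
    deriv (deriv fun s : ℝ => f (x + s • w)) 0 = Hs f x w w := by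
  have hx' : x + (0 : ℝ) • w ≠ 0 := by simpa using hx
  have h1 : deriv (fun s : ℝ => f (x + s • w)) =ᶠ[𝓝 0] fun s => fderiv ℝ f (x + s • w) w := by
    filter_upwards [ev_ne hx'] with s hs
    exact (h.sm.line hs).deriv
  rw [h1.deriv_eq]
  have h2 := ((h.sm.fderiv.clm_const w).line hx').deriv
  rw [h2, fd_const h.sm.fderiv hx']
  simp [Hs]

theorem Fol.be_pos (h : Fol f A Φ) {x : E} (hx : x ≠ 0) : 0 < be f x := by
  have hy := h.flow.ne (-f x) hx
  have h1 : f (Φ (-f x) x) = 0 := by rw [h.fl _ _ hx]; ring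
  have h2 := h.curved _ _ hy h1 (h.vv_ne hy) (f_vv _)
  rw [h.dd hy] at h2
  have h3 : 0 < be f (Φ (-f x) x) := h2
  rw [h.be_eqv hx] at h3
  have h4 : 0 < ((de (Φ (-f x)))⁻¹) ^ 2 := by
    have := h.flow.de_pos (-f x)
    positivity
  exact (mul_pos_iff_of_pos_left h4).1 h3

theorem Fol.rr_pos (h : Fol f A Φ) {x : E} (hx : x ≠ 0) : 0 < rr f x :=
  Real.sqrt_pos.2 (h.be_pos hx)

theorem Fol.rr_sq (h : Fol f A Φ) {x : E} (hx : x ≠ 0) : rr f x ^ 2 = be f x :=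
  Real.sq_sqrt (h.be_pos hx).le

theorem Fol.rr_eqv (h : Fol f A Φ) {x : E} (hx : x ≠ 0) (t : ℝ) :
    rr f (Φ t x) = (de (Φ t))⁻¹ * rr f x := by
  have hd := h.flow.de_pos t
  unfold rr
  rw [h.be_eqv hx, Real.sqrt_mul (by positivity), Real.sqrt_sq (by positivity)]

theorem Fol.ee_eqv (h : Fol f A Φ) {x : E} (hx : x ≠ 0) (t : ℝ) :
    ee f (Φ t x) = Φ t (ee f x) := by
  have hd := (h.flow.de_pos t).ne'
  unfold ee
  rw [h.rr_eqv hx, h.vv_eqv hx, map_smul, smul_smul]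
  congr 1
  field_simp

/-! ### smoothness -/

theorem Fol.sm_vv (h : Fol f A Φ) : Sm (vv f) :=
  ContDiffOn.prodMk (h.sm.fderiv.clm_const _).neg (h.sm.fderiv.clm_const _)

theorem Fol.sm_Hs (h : Fol f A Φ) : Sm (Hs f) := h.sm.fderiv.fderiv

theorem Fol.sm_be (h : Fol f A Φ) : Sm (be f) :=
  ContDiffOn.clm_apply (ContDiffOn.clm_apply h.sm_Hs h.sm_vv) h.sm_vv

theorem Fol.sm_rr (h : Fol f A Φ) : Sm (rr f) :=
  ContDiffOn.sqrt h.sm_be (fun _ hx => (h.be_pos hx).ne')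

theorem Fol.sm_ee (h : Fol f A Φ) : Sm (ee f) :=
  ContDiffOn.smul (ContDiffOn.inv h.sm_rr (fun _ hx => (h.rr_pos hx).ne')) h.sm_vv

theorem Fol.sm_NN (h : Fol f A Φ) : Sm (NN f A) :=
  ContDiffOn.clm_apply h.sm.fderiv (A.contDiff.comp_contDiffOn h.sm_ee)

theorem Fol.sm_pp (h : Fol f A Φ) : Sm (pp f A) :=
  contDiffOn_const.sub (ContDiffOn.clm_apply h.sm.fderiv
    ((A.contDiff.comp A.contDiff).contDiffOn))

theorem Fol.sm_XX (h : Fol f A Φ) : Sm (XX f A) := by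
  apply ContDiffOn.mul h.sm_rr
  apply ContDiff.contDiffOn
  unfold dt
  have a1 : ContDiff ℝ ∞ (fun x => A (A x)) := A.contDiff.comp A.contDiff
  have a2 : ContDiff ℝ ∞ (fun x => A x) := A.contDiff
  exact (a1.fst.mul a2.snd).sub (a1.snd.mul a2.fst)

theorem Fol.sm_gg (h : Fol f A Φ) : Sm (gg f) :=
  ContDiffOn.div (ContDiffOn.clm_apply h.sm_rr.fderiv h.sm_ee) h.sm_rr
    (fun _ hx => (h.rr_pos hx).ne')

theorem Fol.sm_hh (h : Fol f A Φ) : Sm (hh f) :=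
  ContDiffOn.clm_apply h.sm_gg.fderiv h.sm_ee

/-! ### invariant functions -/

/-- invariant under the flow -/
def Inv (Φ : ℝ → E →L[ℝ] E) (s : E → ℝ) : Prop := ∀ t x, x ≠ 0 → s (Φ t x) = s x

theorem Fol.inv_NN (h : Fol f A Φ) : Inv Φ (NN f A) := by
  intro t x hx
  unfold NN
  rw [h.ee_eqv hx, h.flow.comm, h.f1_eqv hx]

theorem Fol.inv_pp (h : Fol f A Φ) : Inv Φ (pp f A) := by
  intro t x hx
  unfold pp
  rw [h.flow.comm, h.flow.comm, h.f1_eqv hx]

theorem Fol.inv_XX (h : Fol f A Φ) : Inv Φ (XX f A) := by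
  intro t x hx
  have hd := (h.flow.de_pos t).ne'
  unfold XX
  rw [h.flow.comm, h.flow.comm, dt_map, h.rr_eqv hx]
  field_simp

theorem Fol.inv_L (h : Fol f A Φ) {s : E → ℝ} (hs : Sm s) (hi : Inv Φ s) :
    Inv Φ (fun x => fderiv ℝ s x (ee f x)) := by
  intro t x hx
  simp only
  rw [h.ee_eqv hx]
  have := h.eqv hs hs (t := t) (c := 1) (k := 0)
    (fun y hy => by rw [hi t y hy, one_mul, add_zero]) hx (ee f x)
  rw [this, one_mul]

theorem Fol.inv_gg (h : Fol f A Φ) : Inv Φ (gg f) := by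
  intro t x hx
  have hd := (h.flow.de_pos t).ne'
  have hr := (h.rr_pos hx).ne'
  unfold gg
  rw [h.ee_eqv hx, h.rr_eqv hx]
  have := h.eqv h.sm_rr h.sm_rr (t := t) (c := (de (Φ t))⁻¹) (k := 0)
    (fun y hy => by rw [h.rr_eqv hy, add_zero]) hx (ee f x)
  rw [this]
  field_simp

theorem Fol.inv_hh (h : Fol f A Φ) : Inv Φ (hh f) := h.inv_L h.sm_gg h.inv_gg

theorem Fol.inv_et (h : Fol f A Φ) : Inv Φ (et f) := h.inv_L h.sm_hh h.inv_hh

theorem Fol.inv_Ax (h : Fol f A Φ) {s : E → ℝ} (hs : Sm s) (hi : Inv Φ s) {x : E} (hx : x ≠ 0) :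
    fderiv ℝ s x (A x) = 0 := by
  have h1 : HasDerivAt (fun t => s (Φ t x)) (fderiv ℝ s (Φ 0 x) (A (Φ 0 x))) 0 :=
    (hs.diff (h.flow.ne 0 hx)).comp_hasDerivAt 0 (h.flow.derV 0 x)
  rw [h.flow.zero] at h1
  have h3 : (fun t => s (Φ t x)) = fun _ => s x := funext fun t => hi t x hx
  rw [h3] at h1
  exact h1.unique (hasDerivAt_const _ _)

theorem Fol.rr_Ax (h : Fol f A Φ) {x : E} (hx : x ≠ 0) :
    fderiv ℝ (rr f) x (A x) = -tr A * rr f x := by
  have h1 : HasDerivAt (rr f ∘ fun t => Φ t x) (fderiv ℝ (rr f) (Φ 0 x) (A (Φ 0 x))) 0 :=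
    (h.sm_rr.diff (h.flow.ne 0 hx)).comp_hasDerivAt 0 (h.flow.derV 0 x)
  rw [h.flow.zero] at h1
  have h3 : (rr f ∘ fun t => Φ t x) = fun t => (de (Φ t))⁻¹ * rr f x :=
    funext fun t => h.rr_eqv hx t
  rw [h3] at h1
  have h4 := ((h.flow.de_der 0).fun_inv (h.flow.de_pos 0).ne').mul_const (rr f x)
  rw [h.flow.de_zero] at h4
  have h5 := h1.unique h4
  rw [h5]
  ring

end Pool.Agent.Run7.h506.LF
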