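import Pool.Agent.Run7.h506.LF.Line
import Pool.Agent.R825.SI.A

/-!
# Analyticity along straight lines and its global consequence
-/

set_option autoImplicit false

open Set Filter Topology
open scoped ContDiff

namespace Pool.Agent.Run7.h506.LF

variable {f : E → ℝ} {A : E →L[ℝ] E} {Φ : ℝ → E →L[ℝ] E}

/-- the fifth order condition on all leaves -/
theorem Fol.fiveU (h : Fol f A Φ) (hp : Proj f) {x : E} (hx : x ≠ 0) :
    et f x = etp (tr A) (NN f A x) (pp f A x) (XX f A x) (gg f x) (hh f x) := by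
  have hy := h.flow.ne (-f x) hx
  have h1 : f (Φ (-f x) x) = 0 := by rw [h.fl _ _ hx]; ring
  have h2 := h.five hp hy h1
  rw [h.inv_et _ _ hx, h.inv_NN _ _ hx, h.inv_pp _ _ hx, h.inv_XX _ _ hx, h.inv_gg _ _ hx,
    h.inv_hh _ _ hx] at h2
  exact h2

abbrev W8 := ℝ × ℝ × ℝ × ℝ × ℝ × ℝ × ℝ × ℝ

/-- the vector field: `y = (F, φ, m, N, P, X, G, H)` -/
noncomputable def VV (τ : ℝ) (y : W8) : W8 :=
  (y.2.1,
    y.2.2.1 ^ 2 - 2 * y.2.2.2.1 * y.2.2.1 * y.2.1 + (y.2.2.2.2.1 - τ) * y.2.1 ^ 2,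
    (y.2.2.2.2.2.2.1 + y.2.2.2.1) * y.2.2.1 ^ 2 - 2 * y.2.2.2.2.1 * y.2.2.1 * y.2.1
      + y.2.2.2.2.2.1 * y.2.1 ^ 2,
    y.2.2.1 * lN τ y.2.2.2.1 y.2.2.2.2.1 y.2.2.2.2.2.2.1,
    y.2.2.1 * (y.2.2.2.2.2.1 - y.2.2.2.1 * y.2.2.2.2.1),
    y.2.2.1 * ((y.2.2.2.2.2.2.1 + 2 * y.2.2.2.1) * y.2.2.2.2.2.1 + y.2.2.2.2.1 * τ
      - 2 * y.2.2.2.2.1 ^ 2),
    y.2.2.1 * y.2.2.2.2.2.2.2,
    y.2.2.1 * etp τ y.2.2.2.1 y.2.2.2.2.1 y.2.2.2.2.2.1 y.2.2.2.2.2.2.1 y.2.2.2.2.2.2.2)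

theorem VV_an (τ : ℝ) (y : W8) : AnalyticAt ℝ (VV τ) y := by
  have h1 : ContDiff ℝ ω (VV τ) := by
    unfold VV lN etp c50 c40 lN
    fun_prop
  exact h1.contDiffAt.analyticAt

theorem Fol.an_line (h : Fol f A Φ) (hp : Proj f) {p w : E} (hn : ∀ u : ℝ, p + u • w ≠ 0)
    (u : ℝ) : AnalyticAt ℝ (fun u : ℝ => f (p + u • w)) u := by
  obtain ⟨Y, hY⟩ : ∃ Y : ℝ → W8, Y = fun u => (f (p + u • w), fderiv ℝ f (p + u • w) w,
    mm f A (p + u • w) w, NN f A (p + u • w), pp f A (p + u • w), XX f A (p + u • w),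
    gg f (p + u • w), hh f (p + u • w)) := ⟨_, rfl⟩
  have h1 : ∀ u, HasDerivAt Y (VV (tr A) (Y u)) u := by
    intro u
    have hu := hn u
    have a7 := h.dH hu
    rw [h.fiveU hp hu] at a7
    have := (h.dF hu).prodMk ((h.dφ hu).prodMk ((h.dm hu).prodMk ((h.dN hu).prodMk
      ((h.dP hu).prodMk ((h.dX hu).prodMk ((h.dG hu).prodMk a7))))))
    rw [hY]
    exact this
  have h2 := ode_vec (VV (tr A)) Y u (VV_an _ _) (Eventually.of_forall h1)
  have h3 : AnalyticAt ℝ (fun u => (Y u).1) u := analyticAt_fst.comp h2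
  rw [hY] at h3
  exact h3

theorem Fol.H_pos (h : Fol f A Φ) {x w : E} (hx : x ≠ 0) (hw : w ≠ 0)
    (h0 : fderiv ℝ f x w = 0) : 0 < Hs f x w w := by
  rw [h.H_exp hx, h0]
  have h1 : mm f A x w ≠ 0 := by
    intro h2
    apply hw
    rw [h.decomp hx w, h0, h2, zero_smul, zero_smul, add_zero]
  have h3 : mm f A x w * mm f A x w - NN f A x * (mm f A x w * 0 + mm f A x w * 0)
      + (pp f A x - tr A) * (0 * 0) = mm f A x w ^ 2 := by ring
  rw [h3]
  positivity

/-- the tangent lines avoid the origin -/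
theorem Fol.avoid (h : Fol f A Φ) {p : E} (hp0 : p ≠ 0) (u0 : ℝ) : p + u0 • ee f p ≠ 0 := by
  intro hcon
  have hw : p = -(u0 • ee f p) := eq_neg_of_add_eq_zero_left hcon
  have hne : ∀ s : ℝ, s < 1 → p + s • (-p) ≠ 0 := by
    intro s hs h1
    have h2 : p + s • (-p) = (1 - s) • p := by rw [smul_neg, sub_smul, one_smul, sub_eq_add_neg]
    rw [h2] at h1
    rcases smul_eq_zero.1 h1 with h3 | h3
    · linarith
    · exact hp0 h3
  have hwne : -p ≠ 0 := neg_ne_zero.2 hp0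
  have hz : fderiv ℝ f p (-p) = 0 := by
    have h1 : -p = u0 • ee f p := neg_eq_of_add_eq_zero_right hcon
    rw [h1, map_smul, f_ee, smul_zero]
  -- the derivative is nonnegative
  have hφ : ∀ s ∈ Ico (0 : ℝ) 1, 0 ≤ fderiv ℝ f (p + s • (-p)) (-p) := by
    intro s hs
    have hd : ∀ s : ℝ, s < 1 → HasDerivAt (fun s : ℝ => fderiv ℝ f (p + s • (-p)) (-p))
        (Hs f (p + s • (-p)) (-p) (-p)) s := by
      intro s hs
      have h1 := (h.sm.fderiv.clm_const (-p)).line (hne s hs)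
      refine h1.congr_deriv ?_
      rw [fd_const h.sm.fderiv (hne s hs)]
      rfl
    have key := image_le_of_deriv_right_lt_deriv_boundary' (a := (0 : ℝ)) (b := s)
      (f := fun s : ℝ => - fderiv ℝ f (p + s • (-p)) (-p))
      (f' := fun s : ℝ => - Hs f (p + s • (-p)) (-p) (-p)) (B := fun _ => 0) (B' := fun _ => 0)
      (fun t ht => ((hd t (lt_of_le_of_lt ht.2 hs.2)).neg).continuousAt.continuousWithinAt)
      (fun t ht => ((hd t (ht.2.trans hs.2)).neg).hasDerivWithinAt)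
      (by rw [show p + (0 : ℝ) • (-p) = p by simp, hz]; simp)
      continuousOn_const (fun t _ => hasDerivWithinAt_const _ _ _)
      (by
        intro t ht h0
        have := h.H_pos (hne t (ht.2.trans hs.2)) hwne (by linarith)
        linarith)
    have := key (right_mem_Icc.2 hs.1)
    linarith
  -- hence the function is nondecreasing
  have hmono : ∀ s ∈ Ico (0 : ℝ) 1, f p ≤ f (p + s • (-p)) := by
    intro s hs
    have hcont : ContinuousOn (fun s : ℝ => f (p + s • (-p))) (Icc 0 s) := fun t ht =>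
      (h.dF (hne t (lt_of_le_of_lt ht.2 hs.2))).continuousAt.continuousWithinAt
    have hm : MonotoneOn (fun s : ℝ => f (p + s • (-p))) (Icc 0 s) := by
      apply monotoneOn_of_deriv_nonneg (convex_Icc 0 s) hcont
      · intro t ht
        rw [interior_Icc] at ht
        exact (h.dF (hne t (ht.2.trans hs.2))).differentiableAt.differentiableWithinAt
      · intro t ht
        rw [interior_Icc] at ht
        rw [(h.dF (hne t (ht.2.trans hs.2))).deriv]
        exact hφ t ⟨ht.1.le, ht.2.trans hs.2⟩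
    have := hm (left_mem_Icc.2 hs.1) (right_mem_Icc.2 hs.1) hs.1
    simpa using this
  obtain ⟨ρ, hρ, hg⟩ := growth_zero h.flow h.sm.continuousOn h.fl (f p)
  have hpn : 0 < ‖p‖ := norm_pos_iff.2 hp0
  obtain ⟨s, hs1, hs2⟩ : ∃ s : ℝ, s ∈ Ico (0 : ℝ) 1 ∧ (1 - s) * ‖p‖ < ρ := by
    refine ⟨1 - min 1 (ρ / (2 * ‖p‖)), ⟨?_, ?_⟩, ?_⟩
    · have := min_le_left 1 (ρ / (2 * ‖p‖)); linarith
    · have : 0 < min 1 (ρ / (2 * ‖p‖)) := lt_min one_pos (by positivity)
      linarith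
    · have h1 : (1 - (1 - min 1 (ρ / (2 * ‖p‖)))) * ‖p‖ ≤ ρ / (2 * ‖p‖) * ‖p‖ := by
        rw [sub_sub_cancel]
        exact mul_le_mul_of_nonneg_right (min_le_right _ _) hpn.le
      have h2 : ρ / (2 * ‖p‖) * ‖p‖ = ρ / 2 := by field_simp
      linarith
  have h3 := hg (p + s • (-p)) (hne s hs1.2) (by
    rw [show p + s • (-p) = (1 - s) • p by rw [smul_neg, sub_smul, one_smul, sub_eq_add_neg],
      norm_smul, Real.norm_of_nonneg (by linarith [hs1.2])]
    exact hs2)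
  linarith [hmono s hs1]

/-- all involutions are point reflections -/
theorem Fol.refl (h : Fol f A Φ) (hp : Proj f) {p : E} (hp0 : p ≠ 0) (h0 : f p = 0) :
    ∀ᶠ s in 𝓝 (0 : ℝ), f (p + s • ee f p) = f (p + (-s) • ee f p) := by
  obtain ⟨c, hc⟩ := hp p (ee f p) hp0 h0 (h.ee_ne hp0) (f_ee p)
  have hn := h.avoid hp0
  obtain ⟨K, hK⟩ : ∃ K : ℝ → ℝ, K = fun s => f (p + s • ee f p) := ⟨_, rfl⟩
  have hKa : ∀ s, AnalyticAt ℝ K s := by
    intro s
    rw [hK]
    exact h.an_line hp hn s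
  have hev : ∀ᶠ s in 𝓝 (0 : ℝ), K (Pool.Agent.R825.SI.sg c s) = K s := by
    filter_upwards [hc] with s hs
    rw [hK]
    simp only
    rw [hs, sub_eq_add_neg, ← neg_smul]
    unfold Pool.Agent.R825.SI.sg
    rw [neg_div]
  have hgl := Pool.Agent.R825.SI.glob hKa (m := c) hev
  have hc0 : c = 0 := by
    by_contra hcne
    have hcont : Continuous K := by
      rw [continuous_iff_continuousAt]
      exact fun s => (hKa s).continuousAt
    have hmabs : 0 < |c| := abs_pos.mpr hcne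
    obtain ⟨ε, hε, hεm⟩ : ∃ ε : ℝ, (ε = 1 ∨ ε = -1) ∧ c * ε = |c| := by
      rcases lt_or_gt_of_ne hcne with h | h
      · exact ⟨-1, Or.inr rfl, by rw [abs_of_neg h]; ring⟩
      · exact ⟨1, Or.inl rfl, by rw [abs_of_pos h]; ring⟩
    have hεabs : |ε| = 1 := by
      rcases hε with h | h <;> rw [h] <;> norm_num
    obtain ⟨C, hC⟩ := (isCompact_Icc (a := -(1 / |c|)) (b := 1 / |c|)).bddAbove_image
      hcont.continuousOn
    have hbd : ∀ u : ℝ, 0 ≤ u → K (ε * u) ≤ C := by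
      intro u hu
      have e1 : 1 + c * (ε * u) = 1 + |c| * u := by
        rw [← hεm]
        ring
      have e2 : 0 < 1 + c * (ε * u) := by
        rw [e1]
        positivity
      rw [← hgl _ e2]
      apply hC
      refine ⟨_, ?_, rfl⟩
      rw [mem_Icc, ← abs_le]
      unfold Pool.Agent.R825.SI.sg
      rw [abs_div, abs_neg, abs_mul, hεabs, one_mul, abs_of_pos e2, e1, abs_of_nonneg hu,
        div_le_div_iff₀ (by positivity) hmabs]
      nlinarith
    obtain ⟨R, hR, hg⟩ := growth_top h.flow h.sm.continuousOn h.fl C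
    have hen : 0 < ‖ee f p‖ := norm_pos_iff.2 (h.ee_ne hp0)
    obtain ⟨u, hu0, hu⟩ : ∃ u : ℝ, 0 ≤ u ∧ R < u * ‖ee f p‖ - ‖p‖ := by
      refine ⟨(R + ‖p‖ + 1) / ‖ee f p‖, by positivity, ?_⟩
      have : (R + ‖p‖ + 1) / ‖ee f p‖ * ‖ee f p‖ = R + ‖p‖ + 1 := by field_simp
      linarith
    have h1 : R < ‖p + (ε * u) • ee f p‖ := by
      have h2 : ‖(ε * u) • ee f p‖ = u * ‖ee f p‖ := by
        rw [norm_smul, Real.norm_eq_abs, abs_mul, hεabs, one_mul, abs_of_nonneg hu0]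
      have h3 : ‖(ε * u) • ee f p‖ ≤ ‖p + (ε * u) • ee f p‖ + ‖p‖ := by
        have h4 : (ε * u) • ee f p = (p + (ε * u) • ee f p) - p := by abel
        conv_lhs => rw [h4]
        exact norm_sub_le _ _
      linarith
    have h5 := hg _ (hn _) h1
    have h6 := hbd u hu0
    rw [hK] at h6
    simp only at h6
    linarith
  subst hc0
  filter_upwards [hev] with s hs
  rw [hK] at hs
  simp only [Pool.Agent.R825.SI.sg, zero_mul, add_zero, div_one] at hs
  exact hs.symm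

/-- `g = 0` -/
theorem Fol.gg_zero (h : Fol f A Φ) (hp : Proj f) {x : E} (hx : x ≠ 0) : gg f x = 0 := by
  have hy := h.flow.ne (-f x) hx
  have h1 : f (Φ (-f x) x) = 0 := by rw [h.fl _ _ hx]; ring
  rw [← h.inv_gg (-f x) x hx]
  obtain ⟨y, hyd⟩ : ∃ y, y = Φ (-f x) x := ⟨_, rfl⟩
  rw [← hyd] at hy h1 ⊢
  have hr := h.refl hp hy h1
  obtain ⟨w, hw⟩ : ∃ w, w = ee f y := ⟨_, rfl⟩
  rw [← hw] at hr
  have hy' : y + (0 : ℝ) • w ≠ 0 := by simpa using hy
  have ev := ev_ne hy'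
  have hneg : Tendsto (fun s : ℝ => -s) (𝓝 0) (𝓝 0) := by
    simpa using (continuous_neg (G := ℝ)).tendsto 0
  have ev' := hneg.eventually ev
  -- first derivative
  have r1 : ∀ᶠ s in 𝓝 (0 : ℝ), fderiv ℝ f (y + s • w) w = - fderiv ℝ f (y + (-s) • w) w := by
    filter_upwards [hr.eventually_nhds, ev, ev'] with s hs a1 a2
    have b1 := h.dF a1
    have b2 := (h.dF a2).comp s (hasDerivAt_neg s)
    have b3 : HasDerivAt (fun s : ℝ => f (y + s • w)) (fderiv ℝ f (y + (-s) • w) w * -1) s :=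
      b2.congr_of_eventuallyEq hs
    rw [b1.unique b3]
    ring
  have r2 : ∀ᶠ s in 𝓝 (0 : ℝ), Hs f (y + s • w) w w = Hs f (y + (-s) • w) w w := by
    have hd : ∀ s : ℝ, y + s • w ≠ 0 → HasDerivAt (fun s : ℝ => fderiv ℝ f (y + s • w) w)
        (Hs f (y + s • w) w w) s := by
      intro s hs
      refine ((h.sm.fderiv.clm_const w).line hs).congr_deriv ?_
      rw [fd_const h.sm.fderiv hs]
      rfl
    filter_upwards [r1.eventually_nhds, ev, ev'] with s hs a1 a2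
    have b1 := hd s a1
    have b2 := ((hd (-s) a2).comp s (hasDerivAt_neg s)).neg
    have b3 := b2.congr_of_eventuallyEq hs
    rw [b1.unique b3]
    ring
  -- third derivative at zero
  have a1 := h.dφ hy'
  have a2 := h.dm hy'
  have a3 := h.dN hy'
  have a4 := h.dP hy'
  have b1 := ((a2.fun_pow 2).fun_sub (((a3.const_mul 2).fun_mul a2).fun_mul a1)).fun_add
      ((a4.sub_const (tr A)).fun_mul (a1.fun_pow 2))
  have e0 : y + (0 : ℝ) • w = y := by simp
  have b2 : HasDerivAt (fun s : ℝ => Hs f (y + s • w) w w) (2 * gg f y) 0 := by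
    refine (b1.congr_of_eventuallyEq ?_).congr_deriv ?_
    · filter_upwards [ev] with s hs
      rw [h.H_exp hs]
      ring
    · rw [e0, hw, f_ee, h.mm_ee hy]
      push_cast
      ring
  have b4 : HasDerivAt (fun s : ℝ => Hs f (y + s • w) w w) (2 * gg f y * -1) 0 := by
    have b5 : HasDerivAt (fun s : ℝ => Hs f (y + s • w) w w) (2 * gg f y) (-0) := by
      rw [neg_zero]; exact b2
    exact (b5.comp 0 (hasDerivAt_neg (0 : ℝ))).congr_of_eventuallyEq r2
  have := b2.unique b4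
  linarith

end Pool.Agent.Run7.h506.LF
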