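import Pool.Agent.Run7.h506.LF.Struct
import Pool.Agent.Run7.h506.LF.An
import Pool.Agent.R462.PL.Parity

/-!
# The time function along straight lines
-/

set_option autoImplicit false

open Set Filter Topology
open scoped ContDiff

namespace Pool.Agent.Run7.h506.LF

variable {f : E → ℝ} {A : E →L[ℝ] E} {Φ : ℝ → E →L[ℝ] E}

/-- the derivative of `N` along the leaf -/
def lN (τ N P G : ℝ) : ℝ := -2 * N ^ 2 - G * N - τ + 2 * P

/-- coefficient of `m ^ 4` in the fourth derivative -/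
def c40 (N P G H : ℝ) : ℝ := 2 * H + 6 * G * (G + N) + 6 * N ^ 2 - 6 * P

/-- the fifth derivative at the point of tangency -/
def c50 (τ N P X G H T : ℝ) : ℝ :=
  2 * T + 12 * G * H + 6 * H * N + 6 * G * lN τ N P G + 12 * N * lN τ N P G - 6 * (X - N * P)
    + 4 * (G + N) * c40 N P G H - 24 * (N ^ 3 - N * P + P * G)

/-- the value of `et` for projective involutions -/
noncomputable def etp (τ N P X G H : ℝ) : ℝ :=
  -(9 * c50 τ N P X G H 0 - 60 * G * c40 N P G H + 160 * G ^ 3) / 18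

section line

variable {p w : E} {u : ℝ}

theorem Fol.dF (h : Fol f A Φ) (hu : p + u • w ≠ 0) :
    HasDerivAt (fun u : ℝ => f (p + u • w)) (fderiv ℝ f (p + u • w) w) u := h.sm.line hu

theorem Fol.dφ (h : Fol f A Φ) (hu : p + u • w ≠ 0) :
    HasDerivAt (fun u : ℝ => fderiv ℝ f (p + u • w) w)
      (mm f A (p + u • w) w ^ 2
        - 2 * NN f A (p + u • w) * mm f A (p + u • w) w * fderiv ℝ f (p + u • w) w
        + (pp f A (p + u • w) - tr A) * fderiv ℝ f (p + u • w) w ^ 2) u := by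
  have h1 := (h.sm.fderiv.clm_const w).line hu
  refine h1.congr_deriv ?_
  rw [fd_const h.sm.fderiv hu]
  change Hs f (p + u • w) w w = _
  rw [h.H_exp hu]
  ring

theorem Fol.dm (h : Fol f A Φ) (hu : p + u • w ≠ 0) :
    HasDerivAt (fun u : ℝ => mm f A (p + u • w) w)
      ((gg f (p + u • w) + NN f A (p + u • w)) * mm f A (p + u • w) w ^ 2
        - 2 * pp f A (p + u • w) * mm f A (p + u • w) w * fderiv ℝ f (p + u • w) w
        + XX f A (p + u • w) * fderiv ℝ f (p + u • w) w ^ 2) u := by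
  have h1 : HasDerivAt (fun u : ℝ => p + u • w) w u := by
    simpa using ((hasDerivAt_id u).smul_const w).const_add p
  obtain ⟨h2, h3⟩ := h.mm_w hu w w
  have h4 := h2.comp_hasDerivAt u h1
  refine HasDerivAt.congr_deriv h4 ?_
  rw [h3]
  ring

theorem Fol.dinv (h : Fol f A Φ) {s : E → ℝ} (hs : Sm s) (hi : Inv Φ s) (hu : p + u • w ≠ 0) :
    HasDerivAt (fun u : ℝ => s (p + u • w))
      (mm f A (p + u • w) w * fderiv ℝ s (p + u • w) (ee f (p + u • w))) u := by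
  refine (hs.line hu).congr_deriv ?_
  rw [h.inv_w hs hi hu]

theorem Fol.dN (h : Fol f A Φ) (hu : p + u • w ≠ 0) :
    HasDerivAt (fun u : ℝ => NN f A (p + u • w))
      (mm f A (p + u • w) w * lN (tr A) (NN f A (p + u • w)) (pp f A (p + u • w))
        (gg f (p + u • w))) u := by
  refine (h.dinv h.sm_NN h.inv_NN hu).congr_deriv ?_
  rw [h.L_NN hu]
  rfl

theorem Fol.dP (h : Fol f A Φ) (hu : p + u • w ≠ 0) :
    HasDerivAt (fun u : ℝ => pp f A (p + u • w))
      (mm f A (p + u • w) w * (XX f A (p + u • w) - NN f A (p + u • w) * pp f A (p + u • w)))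
      u := by
  refine (h.dinv h.sm_pp h.inv_pp hu).congr_deriv ?_
  rw [h.L_pp hu]

theorem Fol.dX (h : Fol f A Φ) (hu : p + u • w ≠ 0) :
    HasDerivAt (fun u : ℝ => XX f A (p + u • w))
      (mm f A (p + u • w) w * ((gg f (p + u • w) + 2 * NN f A (p + u • w)) * XX f A (p + u • w)
        + pp f A (p + u • w) * tr A - 2 * pp f A (p + u • w) ^ 2)) u := by
  refine (h.dinv h.sm_XX h.inv_XX hu).congr_deriv ?_
  rw [h.L_XX hu]

theorem Fol.dG (h : Fol f A Φ) (hu : p + u • w ≠ 0) :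
    HasDerivAt (fun u : ℝ => gg f (p + u • w))
      (mm f A (p + u • w) w * hh f (p + u • w)) u :=
  h.dinv h.sm_gg h.inv_gg hu

theorem Fol.dH (h : Fol f A Φ) (hu : p + u • w ≠ 0) :
    HasDerivAt (fun u : ℝ => hh f (p + u • w))
      (mm f A (p + u • w) w * et f (p + u • w)) u :=
  h.dinv h.sm_hh h.inv_hh hu

end line

/-- the involutions are projective at the points of `γ` -/
def Proj (f : E → ℝ) : Prop := ∀ p v, p ≠ 0 → f p = 0 → v ≠ 0 → fderiv ℝ f p v = 0 →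
  ∃ c : ℝ, ∀ᶠ s in 𝓝 (0 : ℝ), f (p + s • v) = f (p - (s / (1 + c * s)) • v)

theorem Fol.ee_ne (h : Fol f A Φ) {x : E} (hx : x ≠ 0) : ee f x ≠ 0 := by
  intro h1
  have h2 := h.mm_ee hx
  rw [h1] at h2
  unfold mm dt at h2
  simp at h2

/-- the fifth order condition on `γ` -/
theorem Fol.five (h : Fol f A Φ) (hp : Proj f) {x : E} (hx : x ≠ 0) (h0 : f x = 0) :
    et f x = etp (tr A) (NN f A x) (pp f A x) (XX f A x) (gg f x) (hh f x) := by
  obtain ⟨c, hc⟩ := hp x (ee f x) hx h0 (h.ee_ne hx) (f_ee x)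
  obtain ⟨w, hw⟩ : ∃ w, w = ee f x := ⟨_, rfl⟩
  rw [← hw] at hc
  have hx' : x + (0 : ℝ) • w ≠ 0 := by simpa using hx
  have ev := ev_ne hx'
  obtain ⟨φ, hφ⟩ : ∃ φ : ℝ → ℝ, φ = fun u => fderiv ℝ f (x + u • w) w := ⟨_, rfl⟩
  obtain ⟨m, hm⟩ : ∃ m : ℝ → ℝ, m = fun u => mm f A (x + u • w) w := ⟨_, rfl⟩
  obtain ⟨N, hN⟩ : ∃ N : ℝ → ℝ, N = fun u => NN f A (x + u • w) := ⟨_, rfl⟩
  obtain ⟨P, hP⟩ : ∃ P : ℝ → ℝ, P = fun u => pp f A (x + u • w) := ⟨_, rfl⟩
  obtain ⟨X, hX⟩ : ∃ X : ℝ → ℝ, X = fun u => XX f A (x + u • w) := ⟨_, rfl⟩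
  obtain ⟨G, hG⟩ : ∃ G : ℝ → ℝ, G = fun u => gg f (x + u • w) := ⟨_, rfl⟩
  obtain ⟨H, hH⟩ : ∃ H : ℝ → ℝ, H = fun u => hh f (x + u • w) := ⟨_, rfl⟩
  obtain ⟨T, hT⟩ : ∃ T : ℝ → ℝ, T = fun u => et f (x + u • w) := ⟨_, rfl⟩
  obtain ⟨τ, hτ⟩ : ∃ τ : ℝ, τ = tr A := ⟨_, rfl⟩
  have e0 : x + (0 : ℝ) • w = x := by simp
  have φ0 : φ 0 = 0 := by rw [hφ]; simp only; rw [e0, hw, f_ee]
  have m0 : m 0 = 1 := by rw [hm]; simp only; rw [e0, hw, h.mm_ee hx]
  have dφ : ∀ᶠ u in 𝓝 (0 : ℝ), HasDerivAt φ (m u ^ 2 - 2 * N u * m u * φ u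
      + (P u - τ) * φ u ^ 2) u := by
    filter_upwards [ev] with u hu
    subst hφ hm hN hP hτ
    exact h.dφ hu
  have dm : ∀ᶠ u in 𝓝 (0 : ℝ), HasDerivAt m ((G u + N u) * m u ^ 2 - 2 * P u * m u * φ u
      + X u * φ u ^ 2) u := by
    filter_upwards [ev] with u hu
    subst hφ hm hN hP hX hG
    exact h.dm hu
  have dN : ∀ᶠ u in 𝓝 (0 : ℝ), HasDerivAt N (m u * lN τ (N u) (P u) (G u)) u := by
    filter_upwards [ev] with u hu
    subst hm hN hP hG hτ
    exact h.dN hu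
  have dP : ∀ᶠ u in 𝓝 (0 : ℝ), HasDerivAt P (m u * (X u - N u * P u)) u := by
    filter_upwards [ev] with u hu
    subst hm hN hP hX
    exact h.dP hu
  have dX : ∀ᶠ u in 𝓝 (0 : ℝ), HasDerivAt X (m u * ((G u + 2 * N u) * X u + P u * τ
      - 2 * P u ^ 2)) u := by
    filter_upwards [ev] with u hu
    subst hm hN hP hX hG hτ
    exact h.dX hu
  have dG : ∀ᶠ u in 𝓝 (0 : ℝ), HasDerivAt G (m u * H u) u := by
    filter_upwards [ev] with u hu
    subst hm hG hH
    exact h.dG hu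
  have dH : ∀ᶠ u in 𝓝 (0 : ℝ), HasDerivAt H (m u * T u) u := by
    filter_upwards [ev] with u hu
    subst hm hH hT
    exact h.dH hu
  have dF : ∀ᶠ u in 𝓝 (0 : ℝ), HasDerivAt (fun u : ℝ => f (x + u • w)) (φ u) u := by
    filter_upwards [ev] with u hu
    subst hφ
    exact h.dF hu
  -- third derivative
  have d2 : ∀ᶠ u in 𝓝 (0 : ℝ), HasDerivAt
      (fun u => m u ^ 2 - 2 * N u * m u * φ u + (P u - τ) * φ u ^ 2)
      (2 * G u * m u ^ 3 + (6 * N u ^ 2 - 6 * P u) * (m u ^ 2 * φ u)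
        + (3 * X u - 3 * N u * P u + 6 * N u * τ) * (m u * φ u ^ 2)
        + (2 * (P u - τ) ^ 2 - 2 * N u * X u) * φ u ^ 3) u := by
    filter_upwards [dφ, dm, dN, dP] with u a1 a2 a3 a4
    have b1 := ((a2.fun_pow 2).fun_sub (((a3.const_mul 2).fun_mul a2).fun_mul a1)).fun_add
      ((a4.sub_const τ).fun_mul (a1.fun_pow 2))
    refine b1.congr_deriv ?_
    unfold lN
    push_cast
    ring
  -- fourth derivative
  obtain ⟨R, hR⟩ : ∃ R : ℝ → ℝ, R = fun u => (m u ^ 2 * ((3 * ((G u + 2 * N u) * X u + P u * τ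
      - 2 * P u ^ 2) - 3 * (lN τ (N u) (P u) (G u) * P u + N u * (X u - N u * P u))
        + 6 * lN τ (N u) (P u) (G u) * τ)
        + 6 * G u * X u + 2 * (6 * N u ^ 2 - 6 * P u) * (-2 * P u)
        + (3 * X u - 3 * N u * P u + 6 * N u * τ) * (G u + N u)
        + (6 * N u ^ 2 - 6 * P u) * (P u - τ)
        + 2 * (3 * X u - 3 * N u * P u + 6 * N u * τ) * (-2 * N u)
        + 3 * (2 * (P u - τ) ^ 2 - 2 * N u * X u))
        + m u * φ u * ((4 * (P u - τ) * (X u - N u * P u)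
          - 2 * (lN τ (N u) (P u) (G u) * X u + N u * ((G u + 2 * N u) * X u + P u * τ
      - 2 * P u ^ 2))) + 2 * (6 * N u ^ 2 - 6 * P u) * X u
          + (3 * X u - 3 * N u * P u + 6 * N u * τ) * (-2 * P u)
          + 2 * (3 * X u - 3 * N u * P u + 6 * N u * τ) * (P u - τ)
          + 3 * (2 * (P u - τ) ^ 2 - 2 * N u * X u) * (-2 * N u))
        + φ u ^ 2 * ((3 * X u - 3 * N u * P u + 6 * N u * τ) * X u
          + 3 * (2 * (P u - τ) ^ 2 - 2 * N u * X u) * (P u - τ))) := ⟨_, rfl⟩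
  have d3 : ∀ᶠ u in 𝓝 (0 : ℝ), HasDerivAt
      (fun u => 2 * G u * m u ^ 3 + (6 * N u ^ 2 - 6 * P u) * (m u ^ 2 * φ u)
        + (3 * X u - 3 * N u * P u + 6 * N u * τ) * (m u * φ u ^ 2)
        + (2 * (P u - τ) ^ 2 - 2 * N u * X u) * φ u ^ 3)
      (c40 (N u) (P u) (G u) (H u) * m u ^ 4
        - 24 * (N u ^ 3 - N u * P u + P u * G u) * (m u ^ 3 * φ u)
        + φ u ^ 2 * R u) u := by
    filter_upwards [dφ, dm, dN, dP, dX, dG] with u a1 a2 a3 a4 a5 a6
    have b1 := ((a6.const_mul 2).fun_mul (a2.fun_pow 3))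
    have b2 := (((a3.fun_pow 2).const_mul 6).fun_sub (a4.const_mul 6)).fun_mul
      ((a2.fun_pow 2).fun_mul a1)
    have b3 := (((a5.const_mul 3).fun_sub ((a3.const_mul 3).fun_mul a4)).fun_add
      ((a3.const_mul 6).mul_const τ)).fun_mul (a2.fun_mul (a1.fun_pow 2))
    have b4 := ((((a4.sub_const τ).fun_pow 2).const_mul 2).fun_sub
      ((a3.const_mul 2).fun_mul a5)).fun_mul (a1.fun_pow 3)
    refine (((b1.fun_add b2).fun_add b3).fun_add b4).congr_deriv ?_
    rw [hR]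
    unfold lN c40
    push_cast
    ring
  have hRd : ∀ᶠ u in 𝓝 (0 : ℝ), DifferentiableAt ℝ R u := by
    filter_upwards [dφ, dm, dN, dP, dX, dG] with u a1 a2 a3 a4 a5 a6
    have b1 := a1.differentiableAt
    have b2 := a2.differentiableAt
    have b3 := a3.differentiableAt
    have b4 := a4.differentiableAt
    have b5 := a5.differentiableAt
    have b6 := a6.differentiableAt
    rw [hR]
    unfold lN
    fun_prop
  have d4' : ∀ᶠ u in 𝓝 (0 : ℝ), DifferentiableAt ℝ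
      (fun u => c40 (N u) (P u) (G u) (H u) * m u ^ 4
        - 24 * (N u ^ 3 - N u * P u + P u * G u) * (m u ^ 3 * φ u) + φ u ^ 2 * R u) u := by
    filter_upwards [dφ, dm, dN, dP, dX, dG, dH, hRd] with u a1 a2 a3 a4 a5 a6 a7 a8
    have b1 := a1.differentiableAt
    have b2 := a2.differentiableAt
    have b3 := a3.differentiableAt
    have b4 := a4.differentiableAt
    have b5 := a5.differentiableAt
    have b6 := a6.differentiableAt
    have b7 := a7.differentiableAt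
    unfold c40
    fun_prop
  have d4 : ∀ᶠ u in 𝓝 (0 : ℝ), HasDerivAt
      (fun u => c40 (N u) (P u) (G u) (H u) * m u ^ 4
        - 24 * (N u ^ 3 - N u * P u + P u * G u) * (m u ^ 3 * φ u) + φ u ^ 2 * R u)
      (deriv (fun u => c40 (N u) (P u) (G u) (H u) * m u ^ 4
        - 24 * (N u ^ 3 - N u * P u + P u * G u) * (m u ^ 3 * φ u) + φ u ^ 2 * R u) u) u :=
    d4'.mono fun u hu => hu.hasDerivAt
  have d5 : HasDerivAt
      (fun u => c40 (N u) (P u) (G u) (H u) * m u ^ 4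
        - 24 * (N u ^ 3 - N u * P u + P u * G u) * (m u ^ 3 * φ u) + φ u ^ 2 * R u)
      (c50 τ (N 0) (P 0) (X 0) (G 0) (H 0) (T 0)) 0 := by
    have a1 := dφ.self_of_nhds
    have a2 := dm.self_of_nhds
    have a3 := dN.self_of_nhds
    have a4 := dP.self_of_nhds
    have a6 := dG.self_of_nhds
    have a7 := dH.self_of_nhds
    have a8 := hRd.self_of_nhds.hasDerivAt
    have b1 : HasDerivAt (fun u => c40 (N u) (P u) (G u) (H u)) _ 0 :=
      (((a7.const_mul 2).fun_add ((a6.const_mul 6).fun_mul (a6.fun_add a3))).fun_add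
        ((a3.fun_pow 2).const_mul 6)).fun_sub (a4.const_mul 6)
    have b2 := ((((a3.fun_pow 3).fun_sub (a3.fun_mul a4)).fun_add (a4.fun_mul a6)).const_mul
      24).fun_mul ((a2.fun_pow 3).fun_mul a1)
    have b3 := (a1.fun_pow 2).fun_mul a8
    refine (((b1.fun_mul (a2.fun_pow 4)).fun_sub b2).fun_add b3).congr_deriv ?_
    rw [φ0, m0]
    unfold c50 c40 lN
    push_cast
    ring
  have key := Pool.Agent.R462.PL.parity (c := -c) dF dφ d2 d3 d4 (by
    filter_upwards [hc] with s hs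
    rw [hs]
    congr 1
    rw [sub_eq_add_neg, ← neg_smul]
    congr 2
    ring) φ0
  rw [d5.deriv, φ0, m0] at key
  have hT0 : T 0 = et f x := by rw [hT]; simp only; rw [e0]
  have hN0 : N 0 = NN f A x := by rw [hN]; simp only; rw [e0]
  have hP0 : P 0 = pp f A x := by rw [hP]; simp only; rw [e0]
  have hX0 : X 0 = XX f A x := by rw [hX]; simp only; rw [e0]
  have hG0 : G 0 = gg f x := by rw [hG]; simp only; rw [e0]
  have hH0 : H 0 = hh f x := by rw [hH]; simp only; rw [e0]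
  rw [hT0, hN0, hP0, hX0, hG0, hH0, hτ] at key
  unfold etp
  unfold c50 at key ⊢
  linear_combination (1 / 18) * key

end Pool.Agent.Run7.h506.LF
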