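import Pool.Agent.Run7.h506.LF.Frame

/-!
# The structure equations of the moving frame
-/

set_option autoImplicit false

open Set Filter Topology
open scoped ContDiff

namespace Pool.Agent.Run7.h506.LF

variable {f : E → ℝ} {A : E →L[ℝ] E} {Φ : ℝ → E →L[ℝ] E}

theorem Fol.H_Ax (h : Fol f A Φ) {x : E} (hx : x ≠ 0) (w : E) :
    Hs f x w (A x) = - fderiv ℝ f x (A w) := by
  have h1 : HasFDerivAt (fun y => fderiv ℝ f y (A y))
      ((fderiv ℝ f x).comp A + (Hs f x).flip (A x)) x :=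
    HasFDerivAt.clm_apply (h.sm.fderiv.diff hx) A.hasFDerivAt
  have h2 : HasFDerivAt (fun y => fderiv ℝ f y (A y)) (0 : E →L[ℝ] ℝ) x := by
    apply (hasFDerivAt_const (1 : ℝ) x).congr_of_eventuallyEq
    filter_upwards [isOpen_ne.mem_nhds hx] with y hy
    exact h.f_Ax hy
  have h3 := congrArg (fun B : E →L[ℝ] ℝ => B w) (h1.unique h2)
  simp at h3
  linarith

theorem Fol.H_ee (h : Fol f A Φ) {x : E} (hx : x ≠ 0) : Hs f x (ee f x) (ee f x) = 1 := by
  have hr := h.rr_pos hx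
  have h1 : Hs f x (ee f x) (ee f x) = ((rr f x)⁻¹) ^ 2 * be f x := by
    unfold ee be
    simp only [map_smul, _root_.smul_apply, smul_eq_mul]
    ring
  rw [h1, ← h.rr_sq hx]
  field_simp

theorem Fol.decomp (h : Fol f A Φ) {x : E} (hx : x ≠ 0) (w : E) :
    w = mm f A x w • ee f x + fderiv ℝ f x w • A x := by
  have hr := (h.rr_pos hx).ne'
  have h1 := dt_decomp (vv f x) (A x) w
  rw [h.vv_Ax hx, vv_dt] at h1
  have h2 : mm f A x w • ee f x = -(dt w (A x) • vv f x) := by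
    unfold mm ee
    rw [smul_smul, ← neg_smul]
    congr 1
    field_simp
  rw [h2]
  have h3 : w = -((-1 : ℝ) • w) := by simp
  conv_lhs => rw [h3, h1]
  simp only [neg_add, neg_smul, neg_neg]

theorem mm_add (x y z : E) : mm f A x (y + z) = mm f A x y + mm f A x z := by
  unfold mm; rw [dt_add_left]; ring

theorem mm_smul (x y : E) (k : ℝ) : mm f A x (k • y) = k * mm f A x y := by
  unfold mm; rw [dt_smul_left]; ring

theorem Fol.mm_ee (h : Fol f A Φ) {x : E} (hx : x ≠ 0) : mm f A x (ee f x) = 1 := by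
  have hr := (h.rr_pos hx).ne'
  unfold mm ee
  rw [dt_smul_left, h.vv_Ax hx]
  field_simp

theorem mm_Ax (x : E) : mm f A x (A x) = 0 := by
  unfold mm; rw [dt_self, mul_zero]

theorem f_ee (x : E) : fderiv ℝ f x (ee f x) = 0 := by
  unfold ee; rw [map_smul, f_vv, smul_zero]

theorem Fol.dt_ee (h : Fol f A Φ) {x : E} (hx : x ≠ 0) (y : E) :
    rr f x * dt (ee f x) y = - fderiv ℝ f x y := by
  have hr := (h.rr_pos hx).ne'
  unfold ee
  rw [dt_smul_left, vv_dt]
  field_simp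

theorem Fol.mm_Aee (h : Fol f A Φ) {x : E} (hx : x ≠ 0) : mm f A x (A (ee f x)) = pp f A x := by
  have h1 := dt_tr A (ee f x) (A x)
  have h2 := h.dt_ee hx (A (A x))
  have h3 := h.mm_ee hx
  unfold mm at *
  unfold pp
  linear_combination (-rr f x) * h1 + h2 + tr A * h3

theorem mm_AAx (x : E) : mm f A x (A (A x)) = - XX f A x := by
  unfold mm XX; ring

theorem f_AAx (x : E) : fderiv ℝ f x (A (A x)) = tr A - pp f A x := by
  unfold pp; ring

theorem Fol.mm_A (h : Fol f A Φ) {x : E} (hx : x ≠ 0) (w : E) :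
    mm f A x (A w) = mm f A x w * pp f A x - fderiv ℝ f x w * XX f A x := by
  conv_lhs => rw [h.decomp hx w]
  rw [map_add, map_smul, map_smul, mm_add, mm_smul, mm_smul, h.mm_Aee hx, mm_AAx]
  ring

theorem Fol.f_A (h : Fol f A Φ) {x : E} (hx : x ≠ 0) (w : E) :
    fderiv ℝ f x (A w) = mm f A x w * NN f A x + fderiv ℝ f x w * (tr A - pp f A x) := by
  conv_lhs => rw [h.decomp hx w]
  rw [map_add, map_smul, map_smul, map_add, map_smul, map_smul, f_AAx]
  rfl

theorem Fol.H_exp (h : Fol f A Φ) {x : E} (hx : x ≠ 0) (y z : E) :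
    Hs f x y z = mm f A x y * mm f A x z
      - NN f A x * (mm f A x y * fderiv ℝ f x z + mm f A x z * fderiv ℝ f x y)
      + (pp f A x - tr A) * (fderiv ℝ f x y * fderiv ℝ f x z) := by
  have h1 : Hs f x y (A x) = - (mm f A x y * NN f A x + fderiv ℝ f x y * (tr A - pp f A x)) := by
    rw [h.H_Ax hx, h.f_A hx]
  have h2 : Hs f x y (ee f x) = mm f A x y - NN f A x * fderiv ℝ f x y := by
    rw [h.H_symm hx]
    conv_lhs => rw [h.decomp hx y]
    rw [map_add, map_smul, map_smul, h.H_ee hx, h.H_Ax hx]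
    change _ • 1 + _ • -(NN f A x) = _
    simp only [smul_eq_mul]
    ring
  conv_lhs => rw [h.decomp hx z]
  rw [map_add, map_smul, map_smul, h1, h2]
  simp only [smul_eq_mul]
  ring

theorem Fol.rr_ee (h : Fol f A Φ) {x : E} (hx : x ≠ 0) :
    fderiv ℝ (rr f) x (ee f x) = gg f x * rr f x := by
  have hr := (h.rr_pos hx).ne'
  unfold gg
  field_simp

theorem Fol.rr_w (h : Fol f A Φ) {x : E} (hx : x ≠ 0) (w : E) :
    fderiv ℝ (rr f) x w
      = (mm f A x w * gg f x - fderiv ℝ f x w * tr A) * rr f x := by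
  conv_lhs => rw [h.decomp hx w]
  rw [map_add, map_smul, map_smul, h.rr_ee hx, h.rr_Ax hx]
  simp only [smul_eq_mul]
  ring

theorem Fol.inv_w (h : Fol f A Φ) {s : E → ℝ} (hs : Sm s) (hi : Inv Φ s) {x : E} (hx : x ≠ 0)
    (w : E) : fderiv ℝ s x w = mm f A x w * fderiv ℝ s x (ee f x) := by
  conv_lhs => rw [h.decomp hx w]
  rw [map_add, map_smul, map_smul, h.inv_Ax hs hi hx]
  simp only [smul_eq_mul]
  ring

/-- `-r det (y, A w)` -/
theorem Fol.dt_yAw (h : Fol f A Φ) {x : E} (hx : x ≠ 0) (y w : E) :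
    -rr f x * dt y (A w) = mm f A x y * fderiv ℝ f x (A w)
      - fderiv ℝ f x y * mm f A x (A w) := by
  have h1 := h.dt_ee hx (A w)
  have h2 : mm f A x (A w) = rr f x * dt (A x) (A w) := by
    unfold mm; rw [dt_swap (A x)]; ring
  conv_lhs => rw [h.decomp hx y]
  rw [dt_add_left, dt_smul_left, dt_smul_left, h2]
  linear_combination (-mm f A x y) * h1

/-- derivative of the coefficient -/
theorem Fol.mm_w (h : Fol f A Φ) {x : E} (hx : x ≠ 0) (y w : E) :
    HasFDerivAt (fun x => mm f A x y)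
      (-(dt y (A x)) • fderiv ℝ (rr f) x
        - (rr f x) • (y.1 • (ContinuousLinearMap.snd ℝ ℝ ℝ).comp A
          - y.2 • (ContinuousLinearMap.fst ℝ ℝ ℝ).comp A)) x ∧
    (-(dt y (A x)) • fderiv ℝ (rr f) x
        - (rr f x) • (y.1 • (ContinuousLinearMap.snd ℝ ℝ ℝ).comp A
          - y.2 • (ContinuousLinearMap.fst ℝ ℝ ℝ).comp A)) w
      = (mm f A x w * gg f x - fderiv ℝ f x w * tr A) * mm f A x y
        + (mm f A x y * (mm f A x w * NN f A x + fderiv ℝ f x w * (tr A - pp f A x))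
        - fderiv ℝ f x y * (mm f A x w * pp f A x - fderiv ℝ f x w * XX f A x)) := by
  constructor
  · have a1 : HasFDerivAt (fun x => dt y (A x))
        (y.1 • (ContinuousLinearMap.snd ℝ ℝ ℝ).comp A
          - y.2 • (ContinuousLinearMap.fst ℝ ℝ ℝ).comp A) x := by
      unfold dt
      have b1 : HasFDerivAt (fun x : E => (A x).2) ((ContinuousLinearMap.snd ℝ ℝ ℝ).comp A) x :=
        ((ContinuousLinearMap.snd ℝ ℝ ℝ).comp A).hasFDerivAt
      have b2 : HasFDerivAt (fun x : E => (A x).1) ((ContinuousLinearMap.fst ℝ ℝ ℝ).comp A) x :=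
        ((ContinuousLinearMap.fst ℝ ℝ ℝ).comp A).hasFDerivAt
      exact (b1.const_mul y.1).sub (b2.const_mul y.2)
    have a2 := (h.sm_rr.diff hx).neg.mul a1
    unfold mm
    refine a2.congr_fderiv ?_
    ext <;> simp <;> ring
  · have h1 := h.dt_yAw hx y w
    rw [h.f_A hx, h.mm_A hx] at h1
    rw [← h1]
    simp only [_root_.sub_apply, _root_.smul_apply, ContinuousLinearMap.comp_apply,
      ContinuousLinearMap.coe_snd', ContinuousLinearMap.coe_fst', smul_eq_mul]
    rw [h.rr_w hx]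
    unfold mm dt
    ring

/-! ### derivatives of the invariants along the leaf -/

theorem Fol.L_NN (h : Fol f A Φ) {x : E} (hx : x ≠ 0) :
    fderiv ℝ (NN f A) x (ee f x)
      = -2 * NN f A x ^ 2 - gg f x * NN f A x - tr A + 2 * pp f A x := by
  have hr := (h.rr_pos hx).ne'
  -- K
  have hK : HasFDerivAt (fun y => fderiv ℝ f y (A (vv f y)))
      (fderiv ℝ (fun y => fderiv ℝ f y (A (vv f y))) x) x := by
    have hs : Sm (fun y => fderiv ℝ f y (A (vv f y))) :=
      ContDiffOn.clm_apply h.sm.fderiv (A.contDiff.comp_contDiffOn h.sm_vv)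
    exact hs.diff hx
  have hKw : fderiv ℝ (fun y => fderiv ℝ f y (A (vv f y))) x (ee f x)
      = 2 * Hs f x (ee f x) (A (vv f x)) - tr A * Hs f x (ee f x) (vv f x) := by
    have e1 : (fun y => fderiv ℝ f y (A (vv f y))) = fun y =>
        (A (0, 1)).1 * (fderiv ℝ f y (1, 0) * fderiv ℝ f y (1, 0))
        + ((A (0, 1)).2 - (A (1, 0)).1) * (fderiv ℝ f y (1, 0) * fderiv ℝ f y (0, 1))
        - (A (1, 0)).2 * (fderiv ℝ f y (0, 1) * fderiv ℝ f y (0, 1)) := by
      funext y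
      rw [map_eq' (fderiv ℝ f y) (A (vv f y)), map_eq A (vv f y)]
      unfold vv
      simp only [Prod.fst_add, Prod.snd_add, Prod.smul_fst, Prod.smul_snd, smul_eq_mul]
      ring
    have d1 := (h.sm.fderiv.clm_const (1, 0)).diff hx
    have d2 := (h.sm.fderiv.clm_const (0, 1)).diff hx
    have d3 := (((d1.mul d1).const_mul (A (0, 1)).1).add
      ((d1.mul d2).const_mul ((A (0, 1)).2 - (A (1, 0)).1))).sub
      ((d2.mul d2).const_mul (A (1, 0)).2)
    rw [e1]
    have d4 := d3.fderiv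
    have d5 := congrArg (fun B : E →L[ℝ] ℝ => B (ee f x)) d4
    refine Eq.trans d5 ?_
    simp only [_root_.sub_apply, _root_.add_apply, _root_.smul_apply, smul_eq_mul]
    rw [fd_const h.sm.fderiv hx, fd_const h.sm.fderiv hx]
    change _ = 2 * (fderiv ℝ (fderiv ℝ f) x (ee f x)) (A (vv f x))
      - tr A * (fderiv ℝ (fderiv ℝ f) x (ee f x)) (vv f x)
    rw [map_eq' (fderiv ℝ (fderiv ℝ f) x (ee f x)) (A (vv f x)),
      map_eq' (fderiv ℝ (fderiv ℝ f) x (ee f x)) (vv f x), map_eq A (vv f x)]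
    unfold vv tr
    simp only [Prod.fst_add, Prod.snd_add, Prod.smul_fst, Prod.smul_snd, smul_eq_mul]
    ring
  have hv : vv f x = rr f x • ee f x := by
    unfold ee; rw [smul_smul, mul_inv_cancel₀ hr, one_smul]
  have e2 : NN f A = fun y => (rr f y)⁻¹ * fderiv ℝ f y (A (vv f y)) := by
    funext y
    unfold NN ee
    rw [map_smul, map_smul, smul_eq_mul]
  have e3 : fderiv ℝ f x (A (vv f x)) = rr f x * NN f A x := by
    rw [hv, map_smul, map_smul, smul_eq_mul]; rfl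
  have d6 := ((hasDerivAt_inv hr).comp_hasFDerivAt x (h.sm_rr.diff hx)).mul hK
  have d7 : HasFDerivAt (NN f A) (((fun y => y⁻¹) ∘ rr f) x •
      fderiv ℝ (fun y => (fderiv ℝ f y) (A (vv f y))) x +
      (fderiv ℝ f x) (A (vv f x)) • -(rr f x ^ 2)⁻¹ • fderiv ℝ (rr f) x) x := by
    rw [e2]; exact d6
  rw [d7.fderiv]
  simp only [Function.comp_apply]
  simp only [_root_.add_apply, _root_.smul_apply, smul_eq_mul]
  rw [hKw, e3, h.rr_ee hx, hv, map_smul, map_smul, map_smul, h.H_exp hx, h.H_exp hx,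
    h.mm_ee hx, f_ee, h.mm_Aee hx]
  have e4 : fderiv ℝ f x (A (ee f x)) = NN f A x := rfl
  rw [e4]
  simp only [smul_eq_mul]
  field_simp
  ring

theorem Fol.L_pp (h : Fol f A Φ) {x : E} (hx : x ≠ 0) :
    fderiv ℝ (pp f A) x (ee f x) = XX f A x - NN f A x * pp f A x := by
  have h1 : HasFDerivAt (fun y => fderiv ℝ f y (A (A y)))
      ((fderiv ℝ f x).comp (A.comp A) + (Hs f x).flip (A (A x))) x :=
    HasFDerivAt.clm_apply (h.sm.fderiv.diff hx) (A.comp A).hasFDerivAt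
  have h2 := (h1.const_sub (tr A)).fderiv
  have h3 := congrArg (fun B : E →L[ℝ] ℝ => B (ee f x)) h2
  refine Eq.trans h3 ?_
  simp only [_root_.neg_apply, _root_.add_apply, ContinuousLinearMap.comp_apply,
    ContinuousLinearMap.flip_apply]
  rw [h.H_exp hx, h.f_A hx (A (ee f x)), h.mm_Aee hx, h.mm_ee hx, f_ee, mm_AAx, f_AAx]
  have e4 : fderiv ℝ f x (A (ee f x)) = NN f A x := rfl
  rw [e4]
  ring

theorem Fol.L_XX (h : Fol f A Φ) {x : E} (hx : x ≠ 0) :
    fderiv ℝ (XX f A) x (ee f x)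
      = (gg f x + 2 * NN f A x) * XX f A x + pp f A x * tr A - 2 * pp f A x ^ 2 := by
  have b1 : HasFDerivAt (fun x : E => (A x).2) ((ContinuousLinearMap.snd ℝ ℝ ℝ).comp A) x :=
    ((ContinuousLinearMap.snd ℝ ℝ ℝ).comp A).hasFDerivAt
  have b2 : HasFDerivAt (fun x : E => (A x).1) ((ContinuousLinearMap.fst ℝ ℝ ℝ).comp A) x :=
    ((ContinuousLinearMap.fst ℝ ℝ ℝ).comp A).hasFDerivAt
  have b3 : HasFDerivAt (fun x : E => (A (A x)).2)
      ((ContinuousLinearMap.snd ℝ ℝ ℝ).comp (A.comp A)) x :=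
    ((ContinuousLinearMap.snd ℝ ℝ ℝ).comp (A.comp A)).hasFDerivAt
  have b4 : HasFDerivAt (fun x : E => (A (A x)).1)
      ((ContinuousLinearMap.fst ℝ ℝ ℝ).comp (A.comp A)) x :=
    ((ContinuousLinearMap.fst ℝ ℝ ℝ).comp (A.comp A)).hasFDerivAt
  have b5 := (h.sm_rr.diff hx).mul ((b4.mul b1).sub (b3.mul b2))
  have h3 := congrArg (fun B : E →L[ℝ] ℝ => B (ee f x)) b5.fderiv
  refine Eq.trans h3 ?_
  simp only [_root_.sub_apply, _root_.add_apply, _root_.smul_apply,
    ContinuousLinearMap.comp_apply, ContinuousLinearMap.coe_snd', ContinuousLinearMap.coe_fst',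
    smul_eq_mul, Pi.sub_apply, Pi.mul_apply]
  rw [h.rr_ee hx]
  have c1 := h.dt_yAw hx (A (A x)) (ee f x)
  have c2 := h.mm_A hx (A (ee f x))
  rw [h.mm_Aee hx, mm_AAx, f_AAx] at c1
  rw [h.mm_Aee hx] at c2
  have e4 : fderiv ℝ f x (A (ee f x)) = NN f A x := rfl
  rw [e4] at c1 c2
  have c3 : mm f A x (A (A (ee f x))) = -rr f x * dt (A (A (ee f x))) (A x) := rfl
  rw [c3] at c2
  have c4 : XX f A x = rr f x * dt (A (A x)) (A x) := rfl
  unfold dt at c1 c2 c4
  linear_combination (-1) * c1 - c2 - gg f x * c4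

end Pool.Agent.Run7.h506.LF
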